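import Mathlib
import Pool.Agent.H22.VM.Targets

/-!
# VM: module OR, orthogonality (efficient congruencing at level one)
-/

set_option autoImplicit false

open Finset Polynomial

namespace Pool.Agent.H27.VM

open Pool.Agent.H22.VM

theorem norm_sq_eq (z : ℂ) : ((‖z‖ ^ 2 : ℝ) : ℂ) = z * (starRingEnd ℂ) z := by
  rw [Complex.mul_conj, Complex.normSq_eq_norm_sq]

/-- Parseval over a residue ring -/
theorem parseval (hEX : T_EX) {ι : Type} (q : ℕ) (hq : 0 < q) (I : Finset ι) (x : ι → ℤ)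
    (f : ι → ℂ) :
    ∑ h ∈ range q, ((‖∑ i ∈ I, e ((((h : ℤ) * x i : ℤ) : ℝ) / (q : ℝ)) * f i‖ ^ 2 : ℝ) : ℂ)
      = (q : ℂ) * ∑ i ∈ I, ∑ i' ∈ I.filter (fun i' => (q : ℤ) ∣ x i - x i'),
        f i * (starRingEnd ℂ) (f i') := by
  obtain ⟨-, hadd, -, hneg, hsum⟩ := hEX
  have h1 : ∀ h : ℕ, ((‖∑ i ∈ I, e ((((h : ℤ) * x i : ℤ) : ℝ) / (q : ℝ)) * f i‖ ^ 2 : ℝ) : ℂ)
      = ∑ i ∈ I, ∑ i' ∈ I, e ((((h : ℤ) * (x i - x i') : ℤ) : ℝ) / (q : ℝ)) *
        (f i * (starRingEnd ℂ) (f i')) := by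
    intro h
    rw [norm_sq_eq, map_sum, Finset.sum_mul]
    refine Finset.sum_congr rfl fun i _ => ?_
    rw [Finset.mul_sum]
    refine Finset.sum_congr rfl fun i' _ => ?_
    rw [map_mul, ← hneg]
    have e1 : ((((h : ℤ) * (x i - x i') : ℤ) : ℝ) / (q : ℝ))
        = ((((h : ℤ) * x i : ℤ) : ℝ) / (q : ℝ)) + -((((h : ℤ) * x i' : ℤ) : ℝ) / (q : ℝ)) := by
      push_cast; ring
    rw [e1, hadd]
    ring
  simp_rw [h1]
  rw [Finset.sum_comm, Finset.mul_sum]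
  refine Finset.sum_congr rfl fun i _ => ?_
  rw [Finset.sum_comm, Finset.sum_filter, Finset.mul_sum]
  refine Finset.sum_congr rfl fun i' _ => ?_
  rw [← Finset.sum_mul, hsum q (x i - x i') hq]
  split_ifs with hd
  · rfl
  · simp

/-- the arithmetic core -/
theorem pow_dvd_iff (p k a' : ℕ) (x y : ℤ) (hp : p.Prime) (hk : 1 ≤ k) (hkp : k < p)
    (hxy : (p : ℤ) ∣ x - y) (hx : ¬ (p : ℤ) ∣ x) :
    ((p : ℤ) ^ a' ∣ x ^ k - y ^ k ↔ (p : ℤ) ^ a' ∣ x - y) := by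
  have hpp : Prime (p : ℤ) := Nat.prime_iff_prime_int.1 hp
  have hn : ¬ (p : ℤ) ∣ (k : ℤ) := by
    intro h
    have h1 := Int.natCast_dvd_natCast.1 h
    exact absurd (Nat.le_of_dvd (by omega) h1) (by omega)
  have h1 := emultiplicity_pow_sub_pow_of_prime hpp hxy hx hn
  rw [pow_dvd_iff_le_emultiplicity, pow_dvd_iff_le_emultiplicity, h1]

/-- sum over the subclasses -/
theorem cls_split (hCL : T_CL) {ι : Type} (p : ℕ) (hp : 1 < p) (R : Finset ι) (r : ι → ℤ)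
    (a a' : ℕ) (ξ : ℤ) (haa : a ≤ a') (f : ι → ℂ) :
    ∑ i ∈ cls p R r a ξ, ∑ i' ∈ (cls p R r a ξ).filter (fun i' => (p : ℤ) ^ a' ∣ r i - r i'),
        f i * (starRingEnd ℂ) (f i')
      = ∑ j ∈ range (p ^ (a' - a)),
        ((‖∑ i ∈ cls p R r a' (ξ + (p : ℤ) ^ a * (j : ℤ)), f i‖ ^ 2 : ℝ) : ℂ) := by
  rw [(hCL p hp ι R r).2.2.2.2 ℂ _ a a' ξ haa]
  refine Finset.sum_congr rfl fun j _ => ?_
  rw [norm_sq_eq, map_sum, Finset.sum_mul]
  refine Finset.sum_congr rfl fun i hi => ?_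
  rw [Finset.mul_sum]
  refine Finset.sum_congr ?_ fun _ _ => rfl
  unfold cls at hi ⊢
  rw [Finset.mem_filter] at hi
  ext i'
  simp only [Finset.mem_filter]
  constructor
  · rintro ⟨⟨hR, -⟩, h2⟩
    refine ⟨hR, ?_⟩
    have e : r i' - (ξ + (p : ℤ) ^ a * (j : ℤ))
        = (r i - (ξ + (p : ℤ) ^ a * (j : ℤ))) - (r i - r i') := by ring
    rw [e]
    exact dvd_sub hi.2 h2
  · rintro ⟨hR, h2⟩
    have hpa : (p : ℤ) ^ a ∣ (p : ℤ) ^ a' := pow_dvd_pow _ haa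
    refine ⟨⟨hR, ?_⟩, ?_⟩
    · have e : r i' - ξ = (r i' - (ξ + (p : ℤ) ^ a * (j : ℤ))) + (p : ℤ) ^ a * (j : ℤ) := by ring
      rw [e]
      exact dvd_add (hpa.trans h2) (dvd_mul_right _ _)
    · have e : r i - r i' = (r i - (ξ + (p : ℤ) ^ a * (j : ℤ)))
        - (r i' - (ξ + (p : ℤ) ^ a * (j : ℤ))) := by ring
      rw [e]
      exact dvd_sub hi.2 h2

theorem or' (hEX : T_EX) (hCL : T_CL) : T_OR := by
  intro p k m a a' b ξ η hp hkp hk ha haa ha'kb hkbm hξη ι Ω _ w R r F hInv u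
  have hp1 : 1 < p := hp.one_lt
  have hp0 : 0 < p := hp.pos
  obtain ⟨I, hI⟩ : ∃ I, I = cls p R r a ξ := ⟨_, rfl⟩
  obtain ⟨J, hJ⟩ : ∃ J, J = cls p R r b η := ⟨_, rfl⟩
  rw [← hI, ← hJ]
  have hIR : I ⊆ R := by rw [hI]; exact Finset.filter_subset _ _
  have hJR : J ⊆ R := by rw [hJ]; exact Finset.filter_subset _ _
  have ham : a' ≤ m := ha'kb.trans hkbm
  have hq0 : 0 < p ^ a' := pow_pos hp0 _
  -- the invariance for each `h`
  have hstep : ∀ h : ℕ, mm w F I 1 J u = ∑ ω, w ω *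
      (‖∑ i ∈ I, e ((((h : ℤ) * (r i - η) ^ k : ℤ) : ℝ) / ((p ^ a' : ℕ) : ℝ)) * F i ω‖ ^ (2 * (1 : ℝ)) *
        ‖bs F J ω‖ ^ (2 * u)) := by
    intro h
    obtain ⟨T, hTw, φ, hφ, hF⟩ := hInv (C ((h : ℤ) * (p : ℤ) ^ (m - a')) * (X - C η) ^ k) (by
      refine (natDegree_C_mul_le _ _).trans ?_
      refine (natDegree_pow_le).trans ?_
      rw [natDegree_X_sub_C, mul_one])
    have hph : ∀ i, (((C ((h : ℤ) * (p : ℤ) ^ (m - a')) * (X - C η) ^ k).eval (r i) : ℤ) : ℝ)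
        / ((p ^ m : ℕ) : ℝ) = (((h : ℤ) * (r i - η) ^ k : ℤ) : ℝ) / ((p ^ a' : ℕ) : ℝ) := by
      intro i
      have hpR : (p : ℝ) ≠ 0 := by exact_mod_cast hp0.ne'
      rw [eval_mul, eval_C, eval_pow, eval_sub, eval_X, eval_C]
      have e1 : (p : ℝ) ^ m = (p : ℝ) ^ (m - a') * (p : ℝ) ^ a' := by
        rw [← pow_add]; congr 1; omega
      push_cast
      rw [e1]
      field_simp
    unfold mm
    rw [← Equiv.sum_comp T (fun ω => w ω * (‖bs F I ω‖ ^ (2 * (1 : ℝ)) * ‖bs F J ω‖ ^ (2 * u)))]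
    refine Finset.sum_congr rfl fun ω _ => ?_
    rw [hTw]
    have e1 : ‖bs F I (T ω)‖
        = ‖∑ i ∈ I, e ((((h : ℤ) * (r i - η) ^ k : ℤ) : ℝ) / ((p ^ a' : ℕ) : ℝ)) * F i ω‖ := by
      have : bs F I (T ω) = φ ω * ∑ i ∈ I,
          e ((((h : ℤ) * (r i - η) ^ k : ℤ) : ℝ) / ((p ^ a' : ℕ) : ℝ)) * F i ω := by
        unfold bs
        rw [Finset.mul_sum]
        refine Finset.sum_congr rfl fun i hi => ?_
        rw [hF i (hIR hi) ω, hph i, mul_assoc]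
      rw [this, norm_mul, hφ, one_mul]
    have e2 : ‖bs F J (T ω)‖ = ‖bs F J ω‖ := by
      have : bs F J (T ω) = φ ω * bs F J ω := by
        unfold bs
        rw [Finset.mul_sum]
        refine Finset.sum_congr rfl fun i hi => ?_
        rw [hF i (hJR hi) ω, hph i]
        have hdvd : (p : ℤ) ^ a' ∣ (h : ℤ) * (r i - η) ^ k := by
          rw [hJ] at hi
          unfold cls at hi
          have h1 := (Finset.mem_filter.1 hi).2
          have h2 : (p : ℤ) ^ (k * b) ∣ (r i - η) ^ k := by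
            rw [mul_comm, pow_mul]; exact pow_dvd_pow_of_dvd h1 k
          exact Dvd.dvd.mul_left ((pow_dvd_pow _ ha'kb).trans h2) _
        obtain ⟨t, ht⟩ := hdvd
        have e3 : (((h : ℤ) * (r i - η) ^ k : ℤ) : ℝ) / ((p ^ a' : ℕ) : ℝ) = (t : ℝ) := by
          rw [ht]
          have hpR : (p : ℝ) ≠ 0 := by exact_mod_cast hp0.ne'
          push_cast
          field_simp
        rw [e3, hEX.2.2.1 t, mul_one]
      rw [this, norm_mul, hφ, one_mul]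
    rw [e1, e2]
  -- real powers
  have rp : ∀ x : ℝ, x ^ (2 * (1 : ℝ)) = x ^ 2 := by
    intro x; rw [mul_one]; exact Real.rpow_two x
  have hsum : ((p ^ a' : ℕ) : ℝ) * mm w F I 1 J u = ∑ ω, w ω * ((∑ h ∈ range (p ^ a'),
      ‖∑ i ∈ I, e ((((h : ℤ) * (r i - η) ^ k : ℤ) : ℝ) / ((p ^ a' : ℕ) : ℝ)) * F i ω‖ ^ 2) *
        ‖bs F J ω‖ ^ (2 * u)) := by
    have : ∑ h ∈ range (p ^ a'), mm w F I 1 J u = ((p ^ a' : ℕ) : ℝ) * mm w F I 1 J u := by
      rw [Finset.sum_const, Finset.card_range, nsmul_eq_mul]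
    rw [← this, Finset.sum_congr rfl fun h _ => hstep h, Finset.sum_comm]
    refine Finset.sum_congr rfl fun ω _ => ?_
    rw [Finset.sum_mul, Finset.mul_sum]
    refine Finset.sum_congr rfl fun h _ => ?_
    rw [rp]
  have hin : ∀ ω, ∑ h ∈ range (p ^ a'),
      ‖∑ i ∈ I, e ((((h : ℤ) * (r i - η) ^ k : ℤ) : ℝ) / ((p ^ a' : ℕ) : ℝ)) * F i ω‖ ^ 2
      = ((p ^ a' : ℕ) : ℝ) * ∑ j ∈ range (p ^ (a' - a)),
        ‖bs F (cls p R r a' (ξ + (p : ℤ) ^ a * (j : ℤ))) ω‖ ^ 2 := by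
    intro ω
    have h1 := parseval hEX (p ^ a') hq0 I (fun i => (r i - η) ^ k) (fun i => F i ω)
    have h2 : ∀ i ∈ I, I.filter (fun i' => ((p ^ a' : ℕ) : ℤ) ∣ (r i - η) ^ k - (r i' - η) ^ k)
        = I.filter (fun i' => (p : ℤ) ^ a' ∣ r i - r i') := by
      intro i hi
      refine Finset.filter_congr fun i' hi' => ?_
      rw [hI] at hi hi'
      unfold cls at hi hi'
      have hi1 := (Finset.mem_filter.1 hi).2
      have hi2 := (Finset.mem_filter.1 hi').2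
      have hpa : (p : ℤ) ∣ (p : ℤ) ^ a := dvd_pow_self _ (by omega)
      have c1 : (p : ℤ) ∣ (r i - η) - (r i' - η) := by
        have : (r i - η) - (r i' - η) = (r i - ξ) - (r i' - ξ) := by ring
        rw [this]
        exact dvd_sub (hpa.trans hi1) (hpa.trans hi2)
      have c2 : ¬ (p : ℤ) ∣ r i - η := by
        intro h
        apply hξη
        have : ξ - η = (r i - η) - (r i - ξ) := by ring
        rw [this]
        exact dvd_sub h (hpa.trans hi1)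
      have := pow_dvd_iff p k a' (r i - η) (r i' - η) hp hk hkp c1 c2
      rw [Nat.cast_pow, this]
      have e3 : (r i - η) - (r i' - η) = r i - r i' := by ring
      rw [e3]
    have h3 : ∑ i ∈ I, ∑ i' ∈ I.filter (fun i' => ((p ^ a' : ℕ) : ℤ) ∣
        (r i - η) ^ k - (r i' - η) ^ k), F i ω * (starRingEnd ℂ) (F i' ω)
        = ∑ i ∈ I, ∑ i' ∈ I.filter (fun i' => (p : ℤ) ^ a' ∣ r i - r i'),
          F i ω * (starRingEnd ℂ) (F i' ω) :=
      Finset.sum_congr rfl fun i hi => by rw [h2 i hi]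
    rw [h3] at h1
    have h4 := cls_split hCL p hp1 R r a a' ξ haa (fun i => F i ω)
    rw [← hI] at h4
    rw [h4] at h1
    have h5 : ((∑ h ∈ range (p ^ a'),
      ‖∑ i ∈ I, e ((((h : ℤ) * (r i - η) ^ k : ℤ) : ℝ) / ((p ^ a' : ℕ) : ℝ)) * F i ω‖ ^ 2 : ℝ) : ℂ)
      = ((((p ^ a' : ℕ) : ℝ) * ∑ j ∈ range (p ^ (a' - a)),
        ‖bs F (cls p R r a' (ξ + (p : ℤ) ^ a * (j : ℤ))) ω‖ ^ 2 : ℝ) : ℂ) := by
      rw [Complex.ofReal_sum, h1, Complex.ofReal_mul, Complex.ofReal_sum]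
      rfl
    exact_mod_cast h5
  have hq : ((p ^ a' : ℕ) : ℝ) ≠ 0 := by exact_mod_cast hq0.ne'
  apply mul_left_cancel₀ hq
  rw [hsum]
  unfold mm
  rw [Finset.mul_sum]
  simp_rw [Finset.mul_sum]
  rw [Finset.sum_comm]
  refine Finset.sum_congr rfl fun ω _ => ?_
  rw [hin, Finset.mul_sum, Finset.sum_mul, Finset.mul_sum]
  refine Finset.sum_congr rfl fun j _ => ?_
  rw [rp]
  ring

end Pool.Agent.H27.VM
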