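import Pool.Agent.H27.VM.HP2

set_option autoImplicit false

open MeasureTheory

namespace Pool.Agent.H27.VM

open Pool.Agent.H28.VM

theorem hp (hline : T_line) (hdec : T_decay) : T_HP := by
  intro L hL
  obtain ⟨ε₁, hε₁, hline⟩ := hline L hL
  refine ⟨ε₁, hε₁, fun h hh => ?_⟩
  obtain ⟨C₁, hC₁, hline⟩ := hline h hh
  obtain ⟨D0, hD0⟩ := hdec h hh 0
  obtain ⟨D, hD⟩ := hdec h hh 12
  have hDnn : 0 ≤ D := le_trans (mul_nonneg (norm_nonneg _) (pow_nonneg (nm_nonneg _) _)) (hD (1, 0))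
  obtain ⟨S, hSdef⟩ : ∃ S : ℝ, S = ∑' k : ℤ × ℤ, (nm k ^ 3)⁻¹ := ⟨_, rfl⟩
  have hS0 : 0 ≤ S := by
    rw [hSdef]; exact tsum_nonneg fun k => inv_nonneg.mpr (pow_nonneg (nm_nonneg k) 3)
  have hSs : HasSum (fun k : ℤ × ℤ => (nm k ^ 3)⁻¹) S := by
    rw [hSdef]; exact summable_nm3.hasSum
  refine ⟨(D * 2 ^ 12 + 4 * C₁) * S + 1, max 2000 (2 * L), by positivity, ?_, ?_⟩
  · exact le_trans (by norm_num) (le_max_left _ _)
  intro ε hε hεε T ρ c N M hc hN hM Λ hΛ hρΛ k₁ hk₁ t ht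
  have hΛ1 : 2000 ≤ Λ := (le_max_left _ _).trans hΛ
  have hΛ2 : 2 * (L : ℝ) ≤ Λ := (le_max_right _ _).trans hΛ
  have hΛ0 : 0 < Λ := by linarith
  obtain ⟨G, hGdef⟩ : ∃ G : ℤ × ℤ → ℂ, G = fun k => c k * ee (-(nm k * t)) * ft h (k - k₁) :=
    ⟨_, rfl⟩
  have hGn : ∀ k, ‖G k‖ = ‖c k‖ * ‖ft h (k - k₁)‖ := by
    intro k; rw [hGdef]; simp
  have hG : Summable fun k => ‖G k‖ := by
    refine (hc.mul_right D0).of_nonneg_of_le (fun k => norm_nonneg _) (fun k => ?_)
    rw [hGn]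
    refine mul_le_mul_of_nonneg_left ?_ (norm_nonneg _)
    have := hD0 (k - k₁)
    rwa [pow_zero, mul_one] at this
  have hGs : Summable G := hG.of_norm
  -- summability of the weighted sums
  have hw1 : ∀ f : ℤ × ℤ → ℝ, (∀ k, |f k| ≤ 1) → Summable fun k => (f k : ℂ) * G k := by
    intro f hf
    refine Summable.of_norm (hG.of_nonneg_of_le (fun k => norm_nonneg _) (fun k => ?_))
    rw [norm_mul, Complex.norm_real, Real.norm_eq_abs]
    exact mul_le_of_le_one_left (norm_nonneg _) (hf k)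
  have hR := hw1 (Rst L Λ) (fun k => (Rst_spec hL hΛ0.le k).1)
  have hV : ∀ w ∈ WW, Summable fun k => (vw L Λ w k : ℂ) * G k := fun w _ =>
    hw1 (vw L Λ w) (fun k => by
      rw [abs_of_nonneg (vw_nonneg L Λ w k)]; exact vw_le_one L Λ w k)
  have hsplit : ∑' k, (High Λ).indicator (fun k => c k * ee (-(nm k * t)) * ft h (k - k₁)) k =
      ∑' k, (Rst L Λ k : ℂ) * G k + ∑ w ∈ WW, ∑' k, (vw L Λ w k : ℂ) * G k := by
    rw [← Summable.tsum_finsetSum hV, ← hR.tsum_add (summable_sum hV)]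
    refine tsum_congr fun k => ?_
    rw [← Finset.sum_mul, ← add_mul]
    have e : ((Rst L Λ k : ℝ) : ℂ) + ∑ w ∈ WW, (vw L Λ w k : ℂ) =
        (((High Λ).indicator (fun _ => (1 : ℝ)) k : ℝ) : ℂ) := by
      unfold Rst
      rw [Complex.ofReal_sub, Complex.ofReal_sum]
      ring
    rw [e]
    by_cases hk : k ∈ High Λ
    · rw [Set.indicator_of_mem hk, Set.indicator_of_mem hk, hGdef, Complex.ofReal_one, one_mul]
    · rw [Set.indicator_of_notMem hk, Set.indicator_of_notMem hk, Complex.ofReal_zero, zero_mul]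
  rw [hsplit]
  -- the remainder
  have hb1 : ‖∑' k, (Rst L Λ k : ℂ) * G k‖ ≤ D * 2 ^ 12 * N / Λ * S := by
    refine tsum_of_norm_bounded (hSs.mul_left (D * 2 ^ 12 * N / Λ)) (fun k => ?_)
    have hrhs : 0 ≤ D * 2 ^ 12 * N / Λ * (nm k ^ 3)⁻¹ :=
      mul_nonneg (div_nonneg (mul_nonneg (by positivity) hN.nonneg) hΛ0.le)
        (inv_nonneg.mpr (pow_nonneg (nm_nonneg k) 3))
    by_cases h0 : Rst L Λ k = 0
    · rw [h0, Complex.ofReal_zero, zero_mul, norm_zero]; exact hrhs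
    · obtain ⟨hle, hsp⟩ := Rst_spec hL hΛ0.le k
      obtain ⟨hkH, hkC⟩ := hsp h0
      have hkn : Λ < nm k := high_nm hkH
      have hk0 : 0 < nm k := hΛ0.trans hkn
      rw [norm_mul, Complex.norm_real, Real.norm_eq_abs]
      refine (mul_le_of_le_one_left (norm_nonneg _) hle).trans ?_
      rw [hGn]
      have g0 := hN.coef k (by linarith) hkC
      have g1 : nm k / 2 ≤ nm (k - k₁) := by
        have := nm_sub_nm_le k (-k₁)
        rw [nm_neg, ← sub_eq_add_neg] at this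
        linarith [nm_nonneg k₁]
      have g2 := hD (k - k₁)
      have g3 : (nm k / 2) ^ 12 ≤ nm (k - k₁) ^ 12 := pow_le_pow_left₀ (by positivity) g1 12
      have g4 : ‖ft h (k - k₁)‖ * (nm k / 2) ^ 12 ≤ D :=
        (mul_le_mul_of_nonneg_left g3 (norm_nonneg _)).trans g2
      have g5 : ‖ft h (k - k₁)‖ ≤ D * 2 ^ 12 / nm k ^ 12 := by
        rw [le_div_iff₀ (by positivity)]
        have g6 : ‖ft h (k - k₁)‖ * (nm k / 2) ^ 12 * 2 ^ 12 ≤ D * 2 ^ 12 :=
          mul_le_mul_of_nonneg_right g4 (by positivity)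
        calc ‖ft h (k - k₁)‖ * nm k ^ 12 = ‖ft h (k - k₁)‖ * (nm k / 2) ^ 12 * 2 ^ 12 := by ring
          _ ≤ _ := g6
      have g7 : Λ ≤ nm k ^ 5 := by
        have : nm k ^ 1 ≤ nm k ^ 5 := pow_le_pow_right₀ (by linarith) (by norm_num)
        rw [pow_one] at this
        linarith
      calc ‖c k‖ * ‖ft h (k - k₁)‖ ≤ (nm k ^ 4 * N) * (D * 2 ^ 12 / nm k ^ 12) :=
            mul_le_mul g0 g5 (norm_nonneg _) (mul_nonneg (by positivity) hN.nonneg)
        _ = D * 2 ^ 12 * N / nm k ^ 5 * (nm k ^ 3)⁻¹ := by field_simp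
        _ ≤ D * 2 ^ 12 * N / Λ * (nm k ^ 3)⁻¹ := by
            refine mul_le_mul_of_nonneg_right ?_ (by positivity)
            exact div_le_div_of_nonneg_left (mul_nonneg (by positivity) hN.nonneg) hΛ0 g7
  -- the lines
  have hb2 : ∀ w ∈ WW, ‖∑' k, (vw L Λ w k : ℂ) * G k‖ ≤ C₁ * (N + M) / Λ * S := by
    intro w hw
    have hre := reindex (JJ L w) w (fun k l => JJ_sh L k l w) (AA Λ w) (Om L w) (Om_nonneg L w)
      (fun k => (Om_sum L w k).le) (fun k l m => Om_sh L w k l m) G hG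
    have hvw : ∀ k, vw L Λ w k = vp (JJ L w) (AA Λ w) (Om L w) w k := fun k => rfl
    simp only [hvw]
    rw [hre]
    refine tsum_of_norm_bounded (hSs.mul_left (C₁ * (N + M) / Λ)) (fun k => ?_)
    have hNM : 0 ≤ N + M := by linarith [hN.nonneg, hM.nonneg]
    by_cases hk : k ∈ AA Λ w
    · rw [Set.indicator_of_mem hk, Complex.ofReal_one, one_mul]
      obtain ⟨hnear, hpe⟩ := hk
      have hw1 := nm_WW_pos hw
      have hkn : Λ < nm k := by
        have h1 := pe_le (w := w) k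
        exact lt_of_mul_lt_mul_right (hpe.trans_le h1) (by linarith)
      have hk0 : 0 < nm k := hΛ0.trans hkn
      have hΛpe : Λ < |(pe k w : ℝ)| := by nlinarith
      have hLpe : 2 * (L : ℤ) ≤ |pe k w| := by
        have : (2 * (L : ℝ)) ≤ |(pe k w : ℝ)| := by linarith
        exact_mod_cast this
      have hk1pe : 4000 * nm k₁ ≤ (|pe k w| : ℤ) := by
        push_cast
        linarith [nm_nonneg k₁]
      have hl := hline ε hε hεε T ρ c N M hN hM w hw k k₁ hnear (by linarith) hLpe hk1pe t ht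
      have e1 : ∑ l ∈ IJ (JJ L w k), (Om L w k l : ℂ) * G (sh k l w) =
          (((bb L w k)⁻¹ : ℝ) : ℂ) * ∑ l ∈ IJ (JJ L w k),
            ((win (JJ L w k) (l * w.1) * win (JJ L w k) (l * w.2) *
              win (JJ L w k) l : ℝ) : ℂ) *
              (c (sh k l w) * ee (-(nm (sh k l w) * t)) * ft h (sh k l w - k₁)) := by
        rw [Finset.mul_sum]
        refine Finset.sum_congr rfl fun l _ => ?_
        rw [hGdef]
        unfold Om
        rw [div_eq_mul_inv, Complex.ofReal_mul]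
        ring
      rw [e1, norm_mul, Complex.norm_real, Real.norm_eq_abs,
        abs_of_nonneg (inv_nonneg.mpr (bb_pos L w k).le)]
      have hJ := JJ_le hL hw (k := k)
      have hJ2 : 2 * (JJ L w k : ℝ) + 1 ≤ nm k := by
        have h3 : (1000 : ℝ) ≤ L := by exact_mod_cast hL
        have h6 : (0 : ℝ) ≤ JJ L w k := Nat.cast_nonneg _
        have h8 : 1000 * (JJ L w k : ℝ) ≤ L * JJ L w k := mul_le_mul_of_nonneg_right h3 h6
        linarith
      have hb := bb_inv_le L w k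
      have hb3 : (bb L w k)⁻¹ ≤ nm k ^ 3 := hb.trans (pow_le_pow_left₀ (by positivity) hJ2 3)
      calc (bb L w k)⁻¹ * ‖∑ l ∈ IJ (JJ L w k),
            ((win (JJ L w k) (l * w.1) * win (JJ L w k) (l * w.2) *
              win (JJ L w k) l : ℝ) : ℂ) *
              (c (sh k l w) * ee (-(nm (sh k l w) * t)) * ft h (sh k l w - k₁))‖
          ≤ nm k ^ 3 * (C₁ / nm k ^ 7 * (N + M)) :=
            mul_le_mul hb3 hl (norm_nonneg _) (by positivity)
        _ = C₁ * (N + M) / nm k * (nm k ^ 3)⁻¹ := by field_simp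
        _ ≤ C₁ * (N + M) / Λ * (nm k ^ 3)⁻¹ := by
            refine mul_le_mul_of_nonneg_right ?_ (by positivity)
            exact div_le_div_of_nonneg_left (mul_nonneg hC₁.le hNM) hΛ0 hkn.le
    · rw [Set.indicator_of_notMem hk, Complex.ofReal_zero, zero_mul, norm_zero]
      exact mul_nonneg (div_nonneg (mul_nonneg hC₁.le hNM) hΛ0.le)
        (inv_nonneg.mpr (pow_nonneg (nm_nonneg k) 3))
  have hcard : WW.card ≤ 4 := by decide
  calc ‖∑' k, (Rst L Λ k : ℂ) * G k + ∑ w ∈ WW, ∑' k, (vw L Λ w k : ℂ) * G k‖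
      ≤ ‖∑' k, (Rst L Λ k : ℂ) * G k‖ + ‖∑ w ∈ WW, ∑' k, (vw L Λ w k : ℂ) * G k‖ :=
        norm_add_le _ _
    _ ≤ D * 2 ^ 12 * N / Λ * S + ∑ w ∈ WW, C₁ * (N + M) / Λ * S := by
        refine add_le_add hb1 ((norm_sum_le _ _).trans (Finset.sum_le_sum hb2))
    _ ≤ D * 2 ^ 12 * (N + M) / Λ * S + 4 * (C₁ * (N + M) / Λ * S) := by
        have hNM : 0 ≤ N + M := by linarith [hN.nonneg, hM.nonneg]
        refine add_le_add ?_ ?_
        · refine mul_le_mul_of_nonneg_right ?_ hS0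
          refine div_le_div_of_nonneg_right ?_ hΛ0.le
          exact mul_le_mul_of_nonneg_left (by linarith [hM.nonneg]) (by positivity)
        · rw [Finset.sum_const, nsmul_eq_mul]
          refine mul_le_mul_of_nonneg_right (by exact_mod_cast hcard) ?_
          exact mul_nonneg (div_nonneg (mul_nonneg hC₁.le hNM) hΛ0.le) hS0
    _ = ((D * 2 ^ 12 + 4 * C₁) * S) / Λ * (N + M) := by ring
    _ ≤ ((D * 2 ^ 12 + 4 * C₁) * S + 1) / Λ * (N + M) := by
        have hNM : 0 ≤ N + M := by linarith [hN.nonneg, hM.nonneg]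
        refine mul_le_mul_of_nonneg_right ?_ hNM
        refine div_le_div_of_nonneg_right ?_ hΛ0.le
        linarith

end Pool.Agent.H27.VM
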