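import Pool.Agent.H27.VM.Line

set_option autoImplicit false

open MeasureTheory

namespace Pool.Agent.H27.VM

open Pool.Agent.H28.VM

/-! ### lattice sum -/

theorem summable_nm3 : Summable fun k : ℤ × ℤ => (nm k ^ 3)⁻¹ := by
  have h := EisensteinSeries.summable_one_div_norm_rpow (k := 3) (by norm_num)
  have h2 : Summable fun k : ℤ × ℤ => ‖(finTwoArrowEquiv ℤ).symm k‖ ^ (-(3 : ℝ)) :=
    ((finTwoArrowEquiv ℤ).symm.summable_iff (f := fun x : Fin 2 → ℤ => ‖x‖ ^ (-(3 : ℝ)))).mpr h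
  refine h2.of_nonneg_of_le (fun k => inv_nonneg.mpr (pow_nonneg (nm_nonneg k) 3)) (fun k => ?_)
  have hle : ‖(finTwoArrowEquiv ℤ).symm k‖ ≤ nm k := by
    rw [pi_norm_le_iff_of_nonneg (nm_nonneg k)]
    intro i
    fin_cases i
    · simpa [finTwoArrowEquiv, Int.norm_eq_abs] using abs_fst_le_nm k
    · simpa [finTwoArrowEquiv, Int.norm_eq_abs] using abs_snd_le_nm k
  by_cases hk : k = 0
  · subst hk
    simp only [nm_zero]
    norm_num
  · have hpos : 0 < ‖(finTwoArrowEquiv ℤ).symm k‖ := by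
      rw [norm_pos_iff]
      intro h0
      exact hk ((finTwoArrowEquiv ℤ).symm.injective (by rw [h0]; ext i; fin_cases i <;> rfl))
    rw [Real.rpow_neg (norm_nonneg _)]
    have : ‖(finTwoArrowEquiv ℤ).symm k‖ ^ (3 : ℝ) = ‖(finTwoArrowEquiv ℤ).symm k‖ ^ 3 := by
      rw [← Real.rpow_natCast]; norm_num
    rw [this]
    exact inv_anti₀ (by positivity) (pow_le_pow_left₀ (norm_nonneg _) hle 3)

/-! ### reindexing along lines -/

theorem sh_sh (k : ℤ × ℤ) (a b : ℤ) (w : ℤ × ℤ) : sh (sh k a w) b w = sh k (a + b) w := by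
  unfold sh; ext <;> simp <;> ring

theorem sh_zero (k : ℤ × ℤ) (w : ℤ × ℤ) : sh k 0 w = k := by
  unfold sh; ext <;> simp

def shEquiv (w : ℤ × ℤ) : (ℤ × ℤ) × ℤ ≃ (ℤ × ℤ) × ℤ where
  toFun p := (sh p.1 p.2 w, p.2)
  invFun p := (sh p.1 (-p.2) w, p.2)
  left_inv p := by simp [sh_sh, sh_zero]
  right_inv p := by simp [sh_sh, sh_zero]

/-- the averaged weight -/
noncomputable def vp (J : ℤ × ℤ → ℕ) (A : Set (ℤ × ℤ)) (Ω : ℤ × ℤ → ℤ → ℝ) (w k : ℤ × ℤ) : ℝ :=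
  ∑ l ∈ IJ (J k), A.indicator (fun _ => (1 : ℝ)) (sh k (-l) w) * Ω k l

theorem vp_nonneg {J : ℤ × ℤ → ℕ} {A : Set (ℤ × ℤ)} {Ω : ℤ × ℤ → ℤ → ℝ} {w : ℤ × ℤ}
    (h0 : ∀ k l, 0 ≤ Ω k l) (k : ℤ × ℤ) : 0 ≤ vp J A Ω w k :=
  Finset.sum_nonneg fun l _ => mul_nonneg (Set.indicator_nonneg (fun _ _ => zero_le_one) _) (h0 k l)

theorem vp_le_one {J : ℤ × ℤ → ℕ} {A : Set (ℤ × ℤ)} {Ω : ℤ × ℤ → ℤ → ℝ} {w : ℤ × ℤ}
    (h0 : ∀ k l, 0 ≤ Ω k l) (h1 : ∀ k, ∑ l ∈ IJ (J k), Ω k l ≤ 1) (k : ℤ × ℤ) :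
    vp J A Ω w k ≤ 1 := by
  refine le_trans (Finset.sum_le_sum fun l _ => ?_) (h1 k)
  have : A.indicator (fun _ => (1 : ℝ)) (sh k (-l) w) ≤ 1 := by
    unfold Set.indicator; split_ifs <;> norm_num
  exact mul_le_of_le_one_left (h0 k l) this

theorem reindex (J : ℤ × ℤ → ℕ) (w : ℤ × ℤ) (hJ : ∀ k l, J (sh k l w) = J k)
    (A : Set (ℤ × ℤ)) (Ω : ℤ × ℤ → ℤ → ℝ) (h0 : ∀ k l, 0 ≤ Ω k l)
    (h1 : ∀ k, ∑ l ∈ IJ (J k), Ω k l ≤ 1) (hΩ : ∀ k l m, Ω (sh k m w) l = Ω k l)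
    (G : ℤ × ℤ → ℂ) (hG : Summable fun k => ‖G k‖) :
    ∑' k, (vp J A Ω w k : ℂ) * G k =
      ∑' k, ((A.indicator (fun _ => (1 : ℝ)) k : ℝ) : ℂ) *
        ∑ l ∈ IJ (J k), (Ω k l : ℂ) * G (sh k l w) := by
  classical
  obtain ⟨F, hF⟩ : ∃ F : (ℤ × ℤ) × ℤ → ℂ, F = fun p =>
      if p.2 ∈ IJ (J p.1) then
        ((A.indicator (fun _ => (1 : ℝ)) (sh p.1 (-p.2) w) * Ω p.1 p.2 : ℝ) : ℂ) * G p.1 else 0 :=
    ⟨_, rfl⟩
  have hFn : ∀ p, ‖F p‖ = if p.2 ∈ IJ (J p.1) then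
      (A.indicator (fun _ => (1 : ℝ)) (sh p.1 (-p.2) w) * Ω p.1 p.2) * ‖G p.1‖ else 0 := by
    intro p
    rw [hF]
    dsimp only
    split_ifs
    · rw [norm_mul, Complex.norm_real, Real.norm_eq_abs, abs_of_nonneg
        (mul_nonneg (Set.indicator_nonneg (fun _ _ => zero_le_one) _) (h0 _ _))]
    · simp
  have hin : ∀ k, ∑' l, ‖F (k, l)‖ = vp J A Ω w k * ‖G k‖ := by
    intro k
    rw [tsum_eq_sum (s := IJ (J k))]
    · unfold vp
      rw [Finset.sum_mul]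
      refine Finset.sum_congr rfl fun l hl => ?_
      rw [hFn]
      dsimp only
      rw [if_pos hl]
    · intro l hl
      rw [hFn]
      dsimp only
      rw [if_neg hl]
  have hin' : ∀ k, ∑' l, F (k, l) = (vp J A Ω w k : ℂ) * G k := by
    intro k
    rw [tsum_eq_sum (s := IJ (J k))]
    · unfold vp
      push_cast
      rw [Finset.sum_mul]
      refine Finset.sum_congr rfl fun l hl => ?_
      rw [hF]
      dsimp only
      rw [if_pos hl]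
      push_cast
      rfl
    · intro l hl
      rw [hF]
      dsimp only
      rw [if_neg hl]
  have hsF : Summable fun p => ‖F p‖ := by
    rw [summable_prod_of_nonneg (fun p => norm_nonneg _)]
    refine ⟨fun k => ?_, ?_⟩
    · refine summable_of_ne_finset_zero (s := IJ (J k)) fun l hl => ?_
      rw [hFn]
      dsimp only
      rw [if_neg hl]
    · simp_rw [hin]
      refine hG.of_nonneg_of_le (fun k => mul_nonneg (vp_nonneg h0 k) (norm_nonneg _)) (fun k => ?_)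
      exact mul_le_of_le_one_left (norm_nonneg _) (vp_le_one h0 h1 k)
  have hs : Summable F := hsF.of_norm
  have e1 : ∑' p, F p = ∑' k, (vp J A Ω w k : ℂ) * G k := by
    rw [hs.tsum_prod]
    exact tsum_congr hin'
  have e2 : ∑' p, F (shEquiv w p) = ∑' p, F p := (shEquiv w).tsum_eq F
  have hs' : Summable fun p => F (shEquiv w p) := (shEquiv w).summable_iff.mpr hs
  rw [← e1, ← e2, hs'.tsum_prod]
  refine tsum_congr fun k => ?_
  rw [tsum_eq_sum (s := IJ (J k))]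
  · rw [Finset.mul_sum]
    refine Finset.sum_congr rfl fun l hl => ?_
    rw [hF]
    dsimp only [shEquiv, Equiv.coe_fn_mk]
    rw [hJ, if_pos hl, sh_sh, add_neg_cancel, sh_zero, hΩ, Complex.ofReal_mul]
    ring
  · intro l hl
    rw [hF]
    dsimp only [shEquiv, Equiv.coe_fn_mk]
    rw [hJ, if_neg hl]

end Pool.Agent.H27.VM
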