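import Pool.Agent.H27.VM.HP1

set_option autoImplicit false

open MeasureTheory

namespace Pool.Agent.H27.VM

open Pool.Agent.H28.VM

/-! ### the four directions are separated -/

theorem excl {k w w' : ℤ × ℤ} (hw : w ∈ WW) (hw' : w' ∈ WW)
    (h : 1000 * |al k w| ≤ 7 * |pe k w|) (h' : 1000 * |al k w'| ≤ 7 * |pe k w'|)
    (h0 : pe k w ≠ 0) : w = w' := by
  rw [Int.abs_eq_natAbs, Int.abs_eq_natAbs] at h h'
  unfold al pe at *
  rcases WW_cases hw with rfl | rfl | rfl | rfl <;> rcases WW_cases hw' with rfl | rfl | rfl | rfl <;>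
    first
    | rfl
    | (exfalso; simp only [mul_one, mul_zero, mul_neg] at h h' h0; omega)

/-- the near direction maximises `|pe k w| / |w|` -/
theorem pe_max {k w w' : ℤ × ℤ} (hw : w ∈ WW) (hw' : w' ∈ WW)
    (h : 400 * |al k w| < |pe k w|) :
    (pe k w') ^ 2 * (w.1 ^ 2 + w.2 ^ 2) ≤ (pe k w) ^ 2 * (w'.1 ^ 2 + w'.2 ^ 2) := by
  have h2 : (400 * al k w) ^ 2 ≤ (pe k w) ^ 2 := by
    apply sq_le_sq.mpr
    rw [abs_mul]
    simpa using h.le
  unfold al pe at *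
  rcases WW_cases hw with rfl | rfl | rfl | rfl <;> rcases WW_cases hw' with rfl | rfl | rfl | rfl <;>
    simp only [mul_one, mul_zero, mul_neg] at h2 ⊢ <;>
    nlinarith [sq_nonneg (k.1 + k.2), sq_nonneg (k.1 - k.2), sq_nonneg k.1, sq_nonneg k.2,
      sq_nonneg (k.1 + 4 * k.2), sq_nonneg (k.1 - 4 * k.2), sq_nonneg (4 * k.1 + k.2),
      sq_nonneg (4 * k.1 - k.2)]

theorem pe_max' {k w w' : ℤ × ℤ} (hw : w ∈ WW) (hw' : w' ∈ WW)
    (h : 400 * |al k w| < |pe k w|) :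
    |(pe k w' : ℝ)| * nm w ≤ |(pe k w : ℝ)| * nm w' := by
  apply le_of_sq_le_sq _ (mul_nonneg (abs_nonneg _) (nm_nonneg _))
  rw [mul_pow, mul_pow, sq_abs, sq_abs, nm_sq, nm_sq]
  exact_mod_cast pe_max hw hw' h

theorem nm_WW_pos {w : ℤ × ℤ} (hw : w ∈ WW) : 1 ≤ nm w := by
  apply one_le_nm
  rcases WW_cases hw with rfl | rfl | rfl | rfl <;> simp

theorem high_near {Λ : ℝ} {k w : ℤ × ℤ} (hw : w ∈ WW) (hk : k ∈ High Λ)
    (h : 400 * |al k w| < |pe k w|) : Λ * nm w < |(pe k w : ℝ)| := by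
  obtain ⟨w', hw', hlt⟩ := hk
  push_cast at hlt
  have h1 := pe_max' hw hw' h
  have h2 := nm_WW_pos hw
  have h3 := nm_WW_pos hw'
  have h4 : Λ * nm w' * nm w < |(pe k w' : ℝ)| * nm w := mul_lt_mul_of_pos_right hlt (by linarith)
  have h5 : (Λ * nm w) * nm w' < |(pe k w : ℝ)| * nm w' := by nlinarith
  exact lt_of_mul_lt_mul_right h5 (by linarith)

theorem high_nm {Λ : ℝ} {k : ℤ × ℤ} (hk : k ∈ High Λ) : Λ < nm k := by
  obtain ⟨w, hw, hlt⟩ := hk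
  push_cast at hlt
  have h1 := pe_le (w := w) k
  have h2 := nm_WW_pos hw
  exact lt_of_mul_lt_mul_right (hlt.trans_le h1) (by linarith)

/-! ### the weights -/

/-- the near set -/
def AA (Λ : ℝ) (w : ℤ × ℤ) : Set (ℤ × ℤ) := {k | near w k ∧ Λ * nm w < |(pe k w : ℝ)|}

noncomputable def bb (L : ℕ) (w k : ℤ × ℤ) : ℝ :=
  ∑ l ∈ IJ (JJ L w k), win (JJ L w k) (l * w.1) * win (JJ L w k) (l * w.2) * win (JJ L w k) l

noncomputable def Om (L : ℕ) (w k : ℤ × ℤ) (l : ℤ) : ℝ :=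
  win (JJ L w k) (l * w.1) * win (JJ L w k) (l * w.2) * win (JJ L w k) l / bb L w k

theorem bb_term_nonneg (J : ℕ) (w : ℤ × ℤ) (l : ℤ) :
    0 ≤ win J (l * w.1) * win J (l * w.2) * win J l :=
  mul_nonneg (mul_nonneg (win_nonneg _ _) (win_nonneg _ _)) (win_nonneg _ _)

theorem bb_ge (L : ℕ) (w k : ℤ × ℤ) : win (JJ L w k) 0 ^ 3 ≤ bb L w k := by
  unfold bb
  have := Finset.single_le_sum (s := IJ (JJ L w k))
    (f := fun l => win (JJ L w k) (l * w.1) * win (JJ L w k) (l * w.2) * win (JJ L w k) l)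
    (fun l _ => bb_term_nonneg _ w l) (zero_mem_IJ _)
  simp only [zero_mul] at this
  calc win (JJ L w k) 0 ^ 3 = win (JJ L w k) 0 * win (JJ L w k) 0 * win (JJ L w k) 0 := by ring
    _ ≤ _ := this

theorem bb_pos (L : ℕ) (w k : ℤ × ℤ) : 0 < bb L w k :=
  lt_of_lt_of_le (pow_pos (win_zero_pos _) 3) (bb_ge L w k)

theorem bb_inv_le (L : ℕ) (w k : ℤ × ℤ) : (bb L w k)⁻¹ ≤ (2 * (JJ L w k : ℝ) + 1) ^ 3 := by
  have h1 := one_le_mul_win_zero (JJ L w k)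
  have h2 := bb_ge L w k
  have h3 := bb_pos L w k
  rw [inv_le_iff_one_le_mul₀ h3]
  have h4 : (1 : ℝ) ^ 3 ≤ ((2 * (JJ L w k : ℝ) + 1) * win (JJ L w k) 0) ^ 3 :=
    pow_le_pow_left₀ (by norm_num) h1 3
  rw [one_pow, mul_pow] at h4
  exact h4.trans (mul_le_mul_of_nonneg_left h2 (by positivity))

theorem Om_nonneg (L : ℕ) (w k : ℤ × ℤ) (l : ℤ) : 0 ≤ Om L w k l :=
  div_nonneg (bb_term_nonneg _ w l) (bb_pos L w k).le

theorem Om_sum (L : ℕ) (w k : ℤ × ℤ) : ∑ l ∈ IJ (JJ L w k), Om L w k l = 1 := by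
  unfold Om
  rw [← Finset.sum_div]
  exact div_self (bb_pos L w k).ne'

theorem Om_sh (L : ℕ) (w k : ℤ × ℤ) (l m : ℤ) : Om L w (sh k m w) l = Om L w k l := by
  unfold Om bb; simp only [JJ_sh]

/-- the weight of direction `w` -/
noncomputable def vw (L : ℕ) (Λ : ℝ) (w k : ℤ × ℤ) : ℝ := vp (JJ L w) (AA Λ w) (Om L w) w k

theorem vw_nonneg (L : ℕ) (Λ : ℝ) (w k : ℤ × ℤ) : 0 ≤ vw L Λ w k :=
  vp_nonneg (Om_nonneg L w) k

theorem vw_le_one (L : ℕ) (Λ : ℝ) (w k : ℤ × ℤ) : vw L Λ w k ≤ 1 :=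
  vp_le_one (Om_nonneg L w) (fun k => (Om_sum L w k).le) k

theorem natAbs_pe_ge {L : ℕ} (hL : 1000 ≤ L) {w k : ℤ × ℤ} {l : ℤ} (hl : l ∈ IJ (JJ L w k)) :
    1000 * |l| ≤ |pe k w| := by
  rw [mem_IJ] at hl
  unfold JJ at hl
  have h1 : L * ((pe k w).natAbs / L) ≤ (pe k w).natAbs := Nat.mul_div_le _ _
  have h2 : 1000 * l.natAbs ≤ L * ((pe k w).natAbs / L) := Nat.mul_le_mul hL hl
  rw [Int.abs_eq_natAbs, Int.abs_eq_natAbs]
  omega

theorem vw_ne_zero {L : ℕ} (hL : 1000 ≤ L) {Λ : ℝ} {w k : ℤ × ℤ} (hw : w ∈ WW)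
    (h : vw L Λ w k ≠ 0) : Λ * nm w < |(pe k w : ℝ)| ∧ 1000 * |al k w| ≤ 7 * |pe k w| := by
  unfold vw vp at h
  obtain ⟨l, hl, hne⟩ := Finset.exists_ne_zero_of_sum_ne_zero h
  have hmem : sh k (-l) w ∈ AA Λ w := by
    by_contra hc
    rw [Set.indicator_of_notMem hc, zero_mul] at hne
    exact hne rfl
  obtain ⟨h1, h2⟩ := hmem
  rw [pe_sh] at h2
  refine ⟨h2, ?_⟩
  unfold near at h1
  rw [pe_sh, al_sh] at h1
  have h3 := natAbs_pe_ge hL hl
  have h4 : |al k w| ≤ |al k w + -l * (w.1 ^ 2 + w.2 ^ 2)| + 2 * |l| := by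
    have h5 : |al k w| ≤ |al k w + -l * (w.1 ^ 2 + w.2 ^ 2)| + |l * (w.1 ^ 2 + w.2 ^ 2)| := by
      have := abs_add_le (al k w + -l * (w.1 ^ 2 + w.2 ^ 2)) (l * (w.1 ^ 2 + w.2 ^ 2))
      have e : al k w + -l * (w.1 ^ 2 + w.2 ^ 2) + l * (w.1 ^ 2 + w.2 ^ 2) = al k w := by ring
      rwa [e] at this
    have h6 : |l * (w.1 ^ 2 + w.2 ^ 2)| ≤ 2 * |l| := by
      rw [abs_mul]
      have : |w.1 ^ 2 + w.2 ^ 2| ≤ 2 := by
        rcases WW_norm hw with h | h <;> rw [h] <;> norm_num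
      nlinarith [abs_nonneg l]
    linarith
  linarith

theorem vw_high {L : ℕ} (hL : 1000 ≤ L) {Λ : ℝ} {w k : ℤ × ℤ} (hw : w ∈ WW)
    (h : vw L Λ w k ≠ 0) : k ∈ High Λ := by
  refine ⟨w, hw, ?_⟩
  push_cast
  exact (vw_ne_zero hL hw h).1

theorem vw_eq_one {L : ℕ} (hL : 1000 ≤ L) {Λ : ℝ} {w k : ℤ × ℤ} (hw : w ∈ WW)
    (hk : k ∈ High Λ) (h : 400 * |al k w| < |pe k w|) : vw L Λ w k = 1 := by
  rw [← Om_sum L w k]
  unfold vw vp
  refine Finset.sum_congr rfl fun l hl => ?_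
  rw [Set.indicator_of_mem, one_mul]
  have h2 : Λ * nm w < |(pe k w : ℝ)| := high_near hw hk h
  refine ⟨?_, ?_⟩
  · unfold near
    rw [pe_sh, al_sh]
    have h3 := natAbs_pe_ge hL hl
    have h6 : |-l * (w.1 ^ 2 + w.2 ^ 2)| ≤ 2 * |l| := by
      rw [abs_mul, abs_neg]
      have : |w.1 ^ 2 + w.2 ^ 2| ≤ 2 := by
        rcases WW_norm hw with h | h <;> rw [h] <;> norm_num
      nlinarith [abs_nonneg l]
    have h7 := abs_add_le (al k w) (-l * (w.1 ^ 2 + w.2 ^ 2))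
    have h8 := abs_nonneg (pe k w)
    linarith
  · rw [pe_sh]; exact h2

theorem pe_ne_zero_of_high {Λ : ℝ} (hΛ : 0 ≤ Λ) {w k : ℤ × ℤ} 
    (h : Λ * nm w < |(pe k w : ℝ)|) : pe k w ≠ 0 := by
  intro h0
  rw [h0] at h
  simp only [Int.cast_zero, abs_zero] at h
  exact absurd h (not_lt.mpr (mul_nonneg hΛ (nm_nonneg w)))

/-- the remainder weight -/
noncomputable def Rst (L : ℕ) (Λ : ℝ) (k : ℤ × ℤ) : ℝ :=
  (High Λ).indicator (fun _ => (1 : ℝ)) k - ∑ w ∈ WW, vw L Λ w k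

theorem Rst_spec {L : ℕ} (hL : 1000 ≤ L) {Λ : ℝ} (hΛ : 0 ≤ Λ) (k : ℤ × ℤ) :
    |Rst L Λ k| ≤ 1 ∧ (Rst L Λ k ≠ 0 → k ∈ High Λ ∧ CC k) := by
  by_cases hk : k ∈ High Λ
  · by_cases hn : ∃ w ∈ WW, 400 * |al k w| < |pe k w|
    · obtain ⟨w, hw, hlt⟩ := hn
      have h1 := vw_eq_one hL hw hk hlt
      have h2 : ∑ w' ∈ WW, vw L Λ w' k = vw L Λ w k := by
        refine Finset.sum_eq_single w (fun w' hw' hne => ?_) (fun hc => absurd hw hc)
        by_contra hc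
        have h3 := vw_ne_zero hL hw' hc
        refine hne (excl hw' hw h3.2 ?_ (pe_ne_zero_of_high hΛ h3.1))
        have := abs_nonneg (al k w)
        omega
      have h3 : Rst L Λ k = 0 := by
        unfold Rst
        rw [Set.indicator_of_mem hk, h2, h1, sub_self]
      rw [h3]
      simp
    · have hCC : CC k := by
        intro w hw
        by_contra hc
        exact hn ⟨w, hw, not_le.mp hc⟩
      have hs : 0 ≤ ∑ w ∈ WW, vw L Λ w k ∧ ∑ w ∈ WW, vw L Λ w k ≤ 1 := by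
        refine ⟨Finset.sum_nonneg fun w _ => vw_nonneg L Λ w k, ?_⟩
        by_cases hz : ∃ w ∈ WW, vw L Λ w k ≠ 0
        · obtain ⟨w, hw, hwz⟩ := hz
          have h3 := vw_ne_zero hL hw hwz
          have h2 : ∑ w' ∈ WW, vw L Λ w' k = vw L Λ w k := by
            refine Finset.sum_eq_single w (fun w' hw' hne => ?_) (fun hc => absurd hw hc)
            by_contra hc
            have h4 := vw_ne_zero hL hw' hc
            exact hne (excl hw' hw h4.2 h3.2 (pe_ne_zero_of_high hΛ h4.1))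
          rw [h2]
          exact vw_le_one L Λ w k
        · push Not at hz
          rw [Finset.sum_eq_zero hz]
          norm_num
      refine ⟨?_, fun _ => ⟨hk, hCC⟩⟩
      unfold Rst
      rw [Set.indicator_of_mem hk, abs_le]
      constructor <;> linarith [hs.1, hs.2]
  · have h3 : Rst L Λ k = 0 := by
      unfold Rst
      rw [Set.indicator_of_notMem hk, Finset.sum_eq_zero, sub_self]
      intro w hw
      by_contra hc
      exact hk (vw_high hL hw hc)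
    rw [h3]
    simp

end Pool.Agent.H27.VM
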