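import Pool.Agent.H28.VM.Basic

set_option autoImplicit false

open MeasureTheory

namespace Pool.Agent.H27.VM

open Pool.Agent.H28.VM

/-! ### orthogonality -/

theorem integral_ee (n : ℤ) :
    ∫ x in (-Real.pi)..Real.pi, ee ((n : ℝ) * x) = if n = 0 then ((2 * Real.pi : ℝ) : ℂ) else 0 := by
  split_ifs with h
  · subst h
    simp only [Int.cast_zero, zero_mul, ee_zero]
    rw [intervalIntegral.integral_const]
    simp only [Complex.real_smul, mul_one]
    push_cast
    ring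
  · have hne : ((n : ℂ) * Complex.I) ≠ 0 := by
      simp [h]
    have h1 : ∀ x : ℝ, ee ((n : ℝ) * x) = Complex.exp (((n : ℂ) * Complex.I) * x) := by
      intro x
      unfold ee
      congr 1
      push_cast
      ring
    simp_rw [h1]
    rw [integral_exp_mul_complex hne]
    have h2 : Complex.exp ((n : ℂ) * Complex.I * ((Real.pi : ℝ) : ℂ)) =
        Complex.exp ((n : ℂ) * Complex.I * ((-Real.pi : ℝ) : ℂ)) := by
      rw [Complex.exp_eq_exp_iff_exists_int]
      exact ⟨n, by push_cast; ring⟩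
    rw [h2, sub_self, zero_div]

theorem parseval (S : Finset ℤ) (A B : ℤ → ℂ) :
    ∫ x in (-Real.pi)..Real.pi, (∑ l ∈ S, A l * ee ((l : ℝ) * x)) *
        (∑ l ∈ S, B l * ee (-((l : ℝ) * x))) =
      ((2 * Real.pi : ℝ) : ℂ) * ∑ l ∈ S, A l * B l := by
  have h1 : ∀ x : ℝ, (∑ l ∈ S, A l * ee ((l : ℝ) * x)) * (∑ l ∈ S, B l * ee (-((l : ℝ) * x))) =
      ∑ l ∈ S, ∑ m ∈ S, (A l * B m) * ee (((l - m : ℤ) : ℝ) * x) := by
    intro x
    rw [Finset.sum_mul_sum]
    refine Finset.sum_congr rfl fun l _ => Finset.sum_congr rfl fun m _ => ?_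
    have : ee (((l - m : ℤ) : ℝ) * x) = ee ((l : ℝ) * x) * ee (-((m : ℝ) * x)) := by
      rw [← ee_add]; congr 1; push_cast; ring
    rw [this]; ring
  simp_rw [h1]
  rw [intervalIntegral.integral_finset_sum]
  · rw [Finset.mul_sum]
    refine Finset.sum_congr rfl fun l hl => ?_
    rw [intervalIntegral.integral_finset_sum]
    · have h2 : ∀ m ∈ S, ∫ x in (-Real.pi)..Real.pi, A l * B m * ee (((l - m : ℤ) : ℝ) * x) =
          if m = l then A l * B l * ((2 * Real.pi : ℝ) : ℂ) else 0 := by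
        intro m _
        rw [intervalIntegral.integral_const_mul, integral_ee]
        by_cases hm : m = l
        · subst hm; simp
        · rw [if_neg hm, if_neg (fun h => hm (by omega)), mul_zero]
      rw [Finset.sum_congr rfl h2, Finset.sum_ite_eq' S l, if_pos hl]
      ring
    · intro m _
      exact (by fun_prop : Continuous fun x : ℝ => A l * B m * ee (((l - m : ℤ) : ℝ) * x)).intervalIntegrable _ _
  · intro l _
    refine Continuous.intervalIntegrable ?_ _ _
    fun_prop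

/-! ### geometry of lines -/

theorem nm_WW {w : ℤ × ℤ} (h : w ∈ WW) : nm w ^ 2 ≤ 2 := by
  rw [nm_sq]
  rcases WW_norm h with h | h
  · have : ((w.1 : ℝ) ^ 2 + (w.2 : ℝ) ^ 2) = 1 := by exact_mod_cast h
    rw [this]; norm_num
  · have : ((w.1 : ℝ) ^ 2 + (w.2 : ℝ) ^ 2) = 2 := by exact_mod_cast h
    rw [this]

theorem nm_WW' {w : ℤ × ℤ} (h : w ∈ WW) : nm w ≤ 3 / 2 := by
  have := nm_WW h
  nlinarith [nm_nonneg w]

theorem pe_le {w : ℤ × ℤ} (k : ℤ × ℤ) : |(pe k w : ℝ)| ≤ nm k * nm w := by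
  apply abs_le_of_sq_le_sq _ (mul_nonneg (nm_nonneg k) (nm_nonneg w))
  rw [mul_pow, ← al_pe_sq]
  nlinarith [sq_nonneg (al k w : ℝ)]

theorem pe_le' {w : ℤ × ℤ} (h : w ∈ WW) (k : ℤ × ℤ) : |(pe k w : ℝ)| ≤ 3 / 2 * nm k := by
  have := pe_le (w := w) k
  nlinarith [nm_nonneg k, nm_WW' h]

theorem nm_mul (l : ℤ) (w : ℤ × ℤ) : nm (l * w.1, l * w.2) = |(l : ℝ)| * nm w := by
  unfold nm
  rw [← Real.sqrt_sq_eq_abs, ← Real.sqrt_mul (sq_nonneg _)]
  congr 1
  push_cast
  ring

/-- size of the window -/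
theorem JJ_le {L : ℕ} (hL : 1000 ≤ L) {w k : ℤ × ℤ} (hw : w ∈ WW) :
    (L : ℝ) * (JJ L w k : ℝ) ≤ 3 / 2 * nm k := by
  refine le_trans ?_ (pe_le' hw k)
  have h1 : L * JJ L w k ≤ (pe k w).natAbs := by
    unfold JJ; exact Nat.mul_div_le _ _
  have h2 : ((L * JJ L w k : ℕ) : ℝ) ≤ (((pe k w).natAbs : ℕ) : ℝ) := by exact_mod_cast h1
  rw [Nat.cast_mul] at h2
  refine h2.trans (le_of_eq ?_)
  rw [Nat.cast_natAbs]
  push_cast
  rfl

theorem shift_small {L : ℕ} (hL : 1000 ≤ L) {w k : ℤ × ℤ} (hw : w ∈ WW) {l : ℤ}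
    (hl : l ∈ IJ (JJ L w k)) : nm (l * w.1, l * w.2) ≤ nm k / 400 := by
  rw [nm_mul]
  rw [mem_IJ'] at hl
  have h1 : |(l : ℝ)| ≤ (JJ L w k : ℝ) := by exact_mod_cast hl
  have h2 := JJ_le hL hw (k := k)
  have h3 : (1000 : ℝ) ≤ L := by exact_mod_cast hL
  have h4 := nm_WW' hw
  have h5 := nm_nonneg w
  have h6 : (0 : ℝ) ≤ JJ L w k := Nat.cast_nonneg _
  have h7 : |(l : ℝ)| * nm w ≤ JJ L w k * (3 / 2) :=
    mul_le_mul h1 h4 h5 h6
  have h8 : 1000 * (JJ L w k : ℝ) ≤ L * JJ L w k := mul_le_mul_of_nonneg_right h3 h6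
  nlinarith [nm_nonneg k]

theorem nm_sh_le {L : ℕ} (hL : 1000 ≤ L) {w k : ℤ × ℤ} (hw : w ∈ WW) {l : ℤ}
    (hl : l ∈ IJ (JJ L w k)) : nm (sh k l w) ≤ 2 * nm k := by
  rw [sh_eq]
  have h1 := nm_add_le k (l * w.1, l * w.2)
  have h2 := shift_small hL hw hl
  linarith [nm_nonneg k]

theorem nm_sh_sub_ge {L : ℕ} (hL : 1000 ≤ L) {w k k₁ : ℤ × ℤ} (hw : w ∈ WW) {l : ℤ}
    (hl : l ∈ IJ (JJ L w k)) (hk₁ : 4000 * nm k₁ ≤ (|pe k w| : ℤ)) :
    nm k / 2 ≤ nm (sh k l w - k₁) := by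
  rw [sh_eq]
  have h2 := shift_small hL hw hl
  have h3 : 4000 * nm k₁ ≤ 3 / 2 * nm k := by
    refine hk₁.trans ?_
    have := pe_le' hw k
    push_cast
    exact this
  have h4 : nm k - nm ((l * w.1, l * w.2) - k₁) ≤ nm (k + ((l * w.1, l * w.2) - k₁)) :=
    nm_sub_nm_le _ _
  have h5 := nm_sub_le (l * w.1, l * w.2) k₁
  have h6 : k + (l * w.1, l * w.2) - k₁ = k + ((l * w.1, l * w.2) - k₁) := by abel
  rw [h6]
  linarith [nm_nonneg k]

theorem win_mul_le {w : ℤ × ℤ} (hw : w ∈ WW) (J : ℕ) (l : ℤ) :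
    win J (l * w.1) * win J (l * w.2) ≤ win J l := by
  have h0 := win_nonneg J l
  have h1 := win_le_one J l
  have h2 := win_nonneg J 0
  have h3 := win_le_one J 0
  rcases WW_cases hw with rfl | rfl | rfl | rfl
  · simp only [mul_one, mul_zero]; nlinarith
  · simp only [mul_one, mul_zero]; nlinarith
  · simp only [mul_one]; nlinarith
  · simp only [mul_one, mul_neg, win_neg]; nlinarith

theorem pow_mul_exp_le {c : ℝ} (hc : 0 < c) {x : ℝ} (hx : 0 ≤ x) (n : ℕ) :
    x ^ n * Real.exp (-(c * x)) ≤ n.factorial / c ^ n := by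
  have h := Real.pow_div_factorial_le_exp (c * x) (by positivity) n
  rw [Real.exp_neg]
  have hpos := Real.exp_pos (c * x)
  rw [div_le_iff₀ (by positivity), mul_pow] at h
  rw [← div_eq_mul_inv, div_le_div_iff₀ hpos (by positivity)]
  nlinarith

theorem line (hrot : T_rot) (hdec : T_decay) : T_line := by
  intro L hL
  obtain ⟨c₂, C₂, hc₂, hC₂, hrot⟩ := hrot L hL
  refine ⟨c₂ / 4, by positivity, fun h hh => ?_⟩
  obtain ⟨D, hD⟩ := hdec h hh 11
  have hD0 : 0 ≤ D := le_trans (mul_nonneg (norm_nonneg _) (pow_nonneg (nm_nonneg _) _)) (hD (1, 0))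
  refine ⟨D * 2 ^ 11 + C₂ * (Nat.factorial 7 / (c₂ / 2) ^ 7) + 1, by positivity, ?_⟩
  intro ε hε hε₁ T ρ c N M hN hM w hw k k₁ hnear hρ hpe hk₁ t ht
  obtain ⟨J, hJ⟩ : ∃ J, J = JJ L w k := ⟨_, rfl⟩
  have hk0 : 0 < nm k := by
    have h1 := pe_le' hw k
    have h2 : (2 * (L : ℝ)) ≤ |(pe k w : ℝ)| := by exact_mod_cast hpe
    have h3 : (1000 : ℝ) ≤ L := by exact_mod_cast hL
    linarith
  -- rewrite as an integral
  have hkey := parseval (IJ J)
    (fun l => ((win J (l * w.1) * win J (l * w.2) : ℝ) : ℂ) * c (sh k l w) *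
      ee (-(nm (sh k l w) * t)))
    (fun l => (win J l : ℂ) * ft h (sh k l w - k₁))
  have e1 : ∀ φ : ℝ, (∑ l ∈ IJ J, ((win J (l * w.1) * win J (l * w.2) : ℝ) : ℂ) * c (sh k l w) *
      ee (-(nm (sh k l w) * t)) * ee ((l : ℝ) * φ)) = aline c L w k t φ := by
    intro φ
    unfold aline
    rw [← hJ]
    refine Finset.sum_congr rfl fun l _ => ?_
    rw [mul_assoc _ (ee (-(nm (sh k l w) * t))), ← ee_add]
    congr 2
    ring
  simp only [e1] at hkey
  have e2 : (∑ l ∈ IJ J, ((win J (l * w.1) * win J (l * w.2) : ℝ) : ℂ) * c (sh k l w) *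
      ee (-(nm (sh k l w) * t)) * ((win J l : ℂ) * ft h (sh k l w - k₁))) =
      ∑ l ∈ IJ J, ((win J (l * w.1) * win J (l * w.2) * win J l : ℝ) : ℂ) *
        (c (sh k l w) * ee (-(nm (sh k l w) * t)) * ft h (sh k l w - k₁)) := by
    refine Finset.sum_congr rfl fun l _ => ?_
    push_cast
    ring
  rw [e2] at hkey
  rw [← hJ]
  -- pointwise bound
  have hpt : ∀ φ ∈ Set.uIoc (-Real.pi) Real.pi,
      ‖aline c L w k t φ * ∑ l ∈ IJ J, (win J l : ℂ) * ft h (sh k l w - k₁) *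
        ee (-((l : ℝ) * φ))‖ ≤
      (D * 2 ^ 11 + C₂ * (Nat.factorial 7 / (c₂ / 2) ^ 7)) / nm k ^ 7 * (N + M) := by
    intro φ hφ
    rw [Set.uIoc_of_le (by linarith [Real.pi_pos])] at hφ
    have hφπ : |φ| ≤ Real.pi := abs_le.mpr ⟨hφ.1.le, hφ.2⟩
    rw [norm_mul]
    rcases le_or_gt |φ| (1 / 10) with hs | hs
    · have a1 : ‖aline c L w k t φ‖ ≤ nm k ^ 4 * N := hN.line w hw k hρ hnear t φ ht hs
      have a2 : ‖∑ l ∈ IJ J, (win J l : ℂ) * ft h (sh k l w - k₁) * ee (-((l : ℝ) * φ))‖ ≤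
          D * 2 ^ 11 / nm k ^ 11 := by
        refine (norm_sum_le _ _).trans ?_
        calc ∑ l ∈ IJ J, ‖(win J l : ℂ) * ft h (sh k l w - k₁) * ee (-((l : ℝ) * φ))‖
            ≤ ∑ l ∈ IJ J, win J l * (D * 2 ^ 11 / nm k ^ 11) := by
              refine Finset.sum_le_sum fun l hl => ?_
              rw [norm_mul, norm_mul, norm_ee, mul_one, Complex.norm_real, Real.norm_eq_abs,
                abs_of_nonneg (win_nonneg J l)]
              refine mul_le_mul_of_nonneg_left ?_ (win_nonneg J l)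
              have hl' : l ∈ IJ (JJ L w k) := hJ ▸ hl
              have g1 := nm_sh_sub_ge hL hw hl' hk₁
              have g2 := hD (sh k l w - k₁)
              have g3 : (nm k / 2) ^ 11 ≤ nm (sh k l w - k₁) ^ 11 :=
                pow_le_pow_left₀ (by positivity) g1 11
              rw [le_div_iff₀ (by positivity)]
              have g4 : ‖ft h (sh k l w - k₁)‖ * (nm k / 2) ^ 11 ≤ D :=
                (mul_le_mul_of_nonneg_left g3 (norm_nonneg _)).trans g2
              have g5 : (nm k / 2) ^ 11 = nm k ^ 11 / 2 ^ 11 := by rw [div_pow]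
              rw [g5] at g4
              have g6 : ‖ft h (sh k l w - k₁)‖ * (nm k ^ 11 / 2 ^ 11) * 2 ^ 11 ≤ D * 2 ^ 11 :=
                mul_le_mul_of_nonneg_right g4 (by positivity)
              calc ‖ft h (sh k l w - k₁)‖ * nm k ^ 11
                  = ‖ft h (sh k l w - k₁)‖ * (nm k ^ 11 / 2 ^ 11) * 2 ^ 11 := by ring
                _ ≤ _ := g6
          _ = D * 2 ^ 11 / nm k ^ 11 := by rw [← Finset.sum_mul, win_sum, one_mul]
      calc ‖aline c L w k t φ‖ * ‖∑ l ∈ IJ J, (win J l : ℂ) * ft h (sh k l w - k₁) *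
              ee (-((l : ℝ) * φ))‖
          ≤ (nm k ^ 4 * N) * (D * 2 ^ 11 / nm k ^ 11) :=
            mul_le_mul a1 a2 (norm_nonneg _) (mul_nonneg (by positivity) hN.nonneg)
        _ = D * 2 ^ 11 / nm k ^ 7 * N := by field_simp
        _ ≤ (D * 2 ^ 11 + C₂ * (Nat.factorial 7 / (c₂ / 2) ^ 7)) / nm k ^ 7 * (N + M) := by
            refine mul_le_mul ?_ (by linarith [hM.nonneg]) hN.nonneg (by positivity)
            refine div_le_div_of_nonneg_right ?_ (by positivity)
            have : (0 : ℝ) ≤ C₂ * (Nat.factorial 7 / (c₂ / 2) ^ 7) := by positivity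
            linarith
    · have a2 := hrot h hh w hw k k₁ φ hnear hk₁ hs.le hφπ hpe
      rw [← hJ] at a2
      have a1 : ‖aline c L w k t φ‖ ≤ Real.exp (c₂ / 2 * nm k) * M := by
        unfold aline
        rw [← hJ]
        refine (norm_sum_le _ _).trans ?_
        calc ∑ l ∈ IJ J, ‖((win J (l * w.1) * win J (l * w.2) : ℝ) : ℂ) * c (sh k l w) *
                ee ((l : ℝ) * φ - nm (sh k l w) * t)‖
            ≤ ∑ l ∈ IJ J, win J l * (Real.exp (c₂ / 2 * nm k) * M) := by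
              refine Finset.sum_le_sum fun l hl => ?_
              rw [norm_mul, norm_mul, norm_ee, mul_one, Complex.norm_real, Real.norm_eq_abs,
                abs_of_nonneg (mul_nonneg (win_nonneg J _) (win_nonneg J _))]
              have hl' : l ∈ IJ (JJ L w k) := hJ ▸ hl
              have g1 := nm_sh_le hL hw hl'
              have g2 := hM.le (sh k l w)
              have g3 : Real.exp (ε * nm (sh k l w)) ≤ Real.exp (c₂ / 2 * nm k) := by
                apply Real.exp_le_exp.mpr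
                nlinarith [nm_nonneg (sh k l w)]
              refine mul_le_mul (win_mul_le hw J l) ?_ (norm_nonneg _) (win_nonneg J l)
              exact g2.trans (mul_le_mul_of_nonneg_right g3 hM.nonneg)
          _ = Real.exp (c₂ / 2 * nm k) * M := by rw [← Finset.sum_mul, win_sum, one_mul]
      have a3 := pow_mul_exp_le (c := c₂ / 2) (by positivity) hk0.le 7
      calc ‖aline c L w k t φ‖ * ‖∑ l ∈ IJ J, (win J l : ℂ) * ft h (sh k l w - k₁) *
              ee (-((l : ℝ) * φ))‖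
          ≤ (Real.exp (c₂ / 2 * nm k) * M) * (C₂ * Real.exp (-(c₂ * nm k))) :=
            mul_le_mul a1 a2 (norm_nonneg _) (mul_nonneg (Real.exp_pos _).le hM.nonneg)
        _ = (C₂ * Real.exp (-(c₂ / 2 * nm k))) * M := by
            have : Real.exp (-(c₂ / 2 * nm k)) =
                Real.exp (c₂ / 2 * nm k) * Real.exp (-(c₂ * nm k)) := by
              rw [← Real.exp_add]; congr 1; ring
            rw [this]; ring
        _ ≤ (C₂ * (Nat.factorial 7 / (c₂ / 2) ^ 7)) / nm k ^ 7 * M := by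
            refine mul_le_mul_of_nonneg_right ?_ hM.nonneg
            rw [le_div_iff₀ (by positivity)]
            calc C₂ * Real.exp (-(c₂ / 2 * nm k)) * nm k ^ 7
                = C₂ * (nm k ^ 7 * Real.exp (-(c₂ / 2 * nm k))) := by ring
              _ ≤ _ := mul_le_mul_of_nonneg_left a3 hC₂.le
        _ ≤ (D * 2 ^ 11 + C₂ * (Nat.factorial 7 / (c₂ / 2) ^ 7)) / nm k ^ 7 * (N + M) := by
            refine mul_le_mul ?_ (by linarith [hN.nonneg]) hM.nonneg (by positivity)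
            refine div_le_div_of_nonneg_right ?_ (by positivity)
            have : (0 : ℝ) ≤ D * 2 ^ 11 := by positivity
            linarith
  have hint := intervalIntegral.norm_integral_le_of_norm_le_const hpt
  rw [hkey, norm_mul, Complex.norm_real, Real.norm_eq_abs,
    abs_of_pos (by positivity : (0 : ℝ) < 2 * Real.pi)] at hint
  have hπ : |Real.pi - -Real.pi| = 2 * Real.pi := by
    rw [abs_of_pos (by linarith [Real.pi_pos])]; ring
  rw [hπ, mul_comm (2 * Real.pi)] at hint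
  have hfin := le_of_mul_le_mul_right hint (by positivity)
  refine hfin.trans ?_
  refine mul_le_mul_of_nonneg_right ?_ (by linarith [hN.nonneg, hM.nonneg])
  refine div_le_div_of_nonneg_right ?_ (by positivity)
  linarith

end Pool.Agent.H27.VM
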