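import Mathlib
import Pool.Agent.H22.VM.Targets
import Pool.Agent.H27.VM.OR

/-!
# VM: module PH, the second moment of the fluctuation of the square function
-/

set_option autoImplicit false

open Finset Polynomial

namespace Pool.Agent.H27.VM

open Pool.Agent.H22.VM

/-- two-dimensional Parseval, separated frequencies -/
theorem parseval2 (hEX : T_EX) {κ : Type} (q : ℕ) (hq : 0 < q) (S : Finset κ) (A B : κ → ℤ)
    (c : κ → ℂ) (hsep : ∀ P ∈ S, ∀ P' ∈ S, (q : ℤ) ∣ A P - A P' → (q : ℤ) ∣ B P - B P' → P = P') :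
    ∑ h2 ∈ range q, ∑ h1 ∈ range q, ‖∑ P ∈ S, e ((((h1 : ℤ) * A P : ℤ) : ℝ) / (q : ℝ)) *
      (e ((((h2 : ℤ) * B P : ℤ) : ℝ) / (q : ℝ)) * c P)‖ ^ 2 = (q : ℝ) ^ 2 * ∑ P ∈ S, ‖c P‖ ^ 2 := by
  obtain ⟨-, hadd, -, hneg, hsum⟩ := id hEX
  have key : ((∑ h2 ∈ range q, ∑ h1 ∈ range q,
      ‖∑ P ∈ S, e ((((h1 : ℤ) * A P : ℤ) : ℝ) / (q : ℝ)) *
      (e ((((h2 : ℤ) * B P : ℤ) : ℝ) / (q : ℝ)) * c P)‖ ^ 2 : ℝ) : ℂ)
      = (((q : ℝ) ^ 2 * ∑ P ∈ S, ‖c P‖ ^ 2 : ℝ) : ℂ) := by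
    rw [Complex.ofReal_sum]
    have h1 : ∀ h2 : ℕ, ((∑ h1 ∈ range q,
      ‖∑ P ∈ S, e ((((h1 : ℤ) * A P : ℤ) : ℝ) / (q : ℝ)) *
      (e ((((h2 : ℤ) * B P : ℤ) : ℝ) / (q : ℝ)) * c P)‖ ^ 2 : ℝ) : ℂ)
      = (q : ℂ) * ∑ P ∈ S, ∑ P' ∈ S.filter (fun P' => (q : ℤ) ∣ A P - A P'),
        e ((((h2 : ℤ) * (B P - B P') : ℤ) : ℝ) / (q : ℝ)) * (c P * (starRingEnd ℂ) (c P')) := by
      intro h2
      rw [Complex.ofReal_sum, parseval hEX q hq S A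
        (fun P => e ((((h2 : ℤ) * B P : ℤ) : ℝ) / (q : ℝ)) * c P)]
      congr 1
      refine Finset.sum_congr rfl fun P _ => Finset.sum_congr rfl fun P' _ => ?_
      rw [map_mul, ← hneg]
      have e1 : ((((h2 : ℤ) * (B P - B P') : ℤ) : ℝ) / (q : ℝ))
          = ((((h2 : ℤ) * B P : ℤ) : ℝ) / (q : ℝ)) + -((((h2 : ℤ) * B P' : ℤ) : ℝ) / (q : ℝ)) := by
        push_cast; ring
      rw [e1, hadd]
      ring
    simp_rw [h1]
    rw [← Finset.mul_sum, Finset.sum_comm]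
    have h3 : ∀ P ∈ S, ∑ h2 ∈ range q, ∑ P' ∈ S.filter (fun P' => (q : ℤ) ∣ A P - A P'),
        e ((((h2 : ℤ) * (B P - B P') : ℤ) : ℝ) / (q : ℝ)) * (c P * (starRingEnd ℂ) (c P'))
        = (q : ℂ) * ((‖c P‖ ^ 2 : ℝ) : ℂ) := by
      intro P hP
      rw [Finset.sum_comm]
      have h4 : ∀ P' ∈ S.filter (fun P' => (q : ℤ) ∣ A P - A P'),
          ∑ h2 ∈ range q, e ((((h2 : ℤ) * (B P - B P') : ℤ) : ℝ) / (q : ℝ)) *
            (c P * (starRingEnd ℂ) (c P'))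
          = if (q : ℤ) ∣ B P - B P' then (q : ℂ) * (c P * (starRingEnd ℂ) (c P')) else 0 := by
        intro P' _
        rw [← Finset.sum_mul, hsum q _ hq]
        split_ifs <;> simp
      rw [Finset.sum_congr rfl h4, Finset.sum_eq_single P]
      · rw [if_pos (by simp), norm_sq_eq]
      · intro P' hP' hne
        have hP'2 := Finset.mem_filter.1 hP'
        rw [if_neg]
        intro hB
        exact hne (hsep P hP P' hP'2.1 hP'2.2 hB).symm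
      · intro hn
        exact absurd (Finset.mem_filter.2 ⟨hP, by simp⟩) hn
    rw [Finset.sum_congr rfl h3, ← Finset.mul_sum]
    push_cast
    ring
  exact_mod_cast key

/-- counting a class -/
theorem class_card {ι : Type} (p B c : ℕ) (hp : 0 < p) (hc : c ≤ B) (S : Finset ι) (r : ι → ℤ)
    (hinj : Set.InjOn r S) (hr : ∀ i ∈ S, 0 ≤ r i ∧ r i < (p : ℤ) ^ B)
    (hcl : ∀ i ∈ S, ∀ j ∈ S, (p : ℤ) ^ c ∣ r i - r j) : S.card ≤ p ^ (B - c) := by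
  have hpc : (0 : ℤ) < (p : ℤ) ^ c := by positivity
  have hB : (p : ℤ) ^ B = (p : ℤ) ^ c * (p : ℤ) ^ (B - c) := by rw [← pow_add]; congr 1; omega
  rw [← Finset.card_range (p ^ (B - c))]
  refine Finset.card_le_card_of_injOn (fun i => (r i / (p : ℤ) ^ c).toNat) ?_ ?_
  · intro i hi
    have h1 := hr i hi
    have h2 : 0 ≤ r i / (p : ℤ) ^ c := Int.ediv_nonneg h1.1 hpc.le
    have h3 : r i / (p : ℤ) ^ c < (p : ℤ) ^ (B - c) := by
      rw [Int.ediv_lt_iff_lt_mul hpc, mul_comm, ← hB]; exact h1.2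
    rw [Finset.mem_coe, Finset.mem_range]
    have h4 : ((r i / (p : ℤ) ^ c).toNat : ℤ) < ((p ^ (B - c) : ℕ) : ℤ) := by
      rw [Int.toNat_of_nonneg h2]; push_cast; exact h3
    exact_mod_cast h4
  · intro i hi j hj hij
    have h1 := hr i hi
    have h2 := hr j hj
    have h3 : r i / (p : ℤ) ^ c = r j / (p : ℤ) ^ c := by
      have a1 : 0 ≤ r i / (p : ℤ) ^ c := Int.ediv_nonneg h1.1 hpc.le
      have a2 : 0 ≤ r j / (p : ℤ) ^ c := Int.ediv_nonneg h2.1 hpc.le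
      have a3 : ((r i / (p : ℤ) ^ c).toNat : ℤ) = ((r j / (p : ℤ) ^ c).toNat : ℤ) := by
        exact_mod_cast hij
      rwa [Int.toNat_of_nonneg a1, Int.toNat_of_nonneg a2] at a3
    have h4 : r i % (p : ℤ) ^ c = r j % (p : ℤ) ^ c := Int.modEq_iff_dvd.2 (hcl j hj i hi)
    apply hinj hi hj
    rw [← Int.emod_add_mul_ediv (r i) ((p : ℤ) ^ c), ← Int.emod_add_mul_ediv (r j) ((p : ℤ) ^ c),
      h3, h4]

/-- the separation of the frequencies -/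
theorem freq_sep (p k B : ℕ) (hp : 2 ≤ p) (hk : 3 ≤ k) (hB : 1 ≤ B) (x y x' y' : ℤ)
    (hx : 0 ≤ x ∧ x < (p : ℤ) ^ B) (hy : 0 ≤ y ∧ y < (p : ℤ) ^ B)
    (hx' : 0 ≤ x' ∧ x' < (p : ℤ) ^ B) (hy' : 0 ≤ y' ∧ y' < (p : ℤ) ^ B) (hne : x ≠ y)
    (h1 : ((p ^ (k * B) : ℕ) : ℤ) ∣ (x - y) - (x' - y'))
    (h2 : ((p ^ (k * B) : ℕ) : ℤ) ∣ (x ^ 2 - y ^ 2) - (x' ^ 2 - y' ^ 2)) : x = x' ∧ y = y' := by
  obtain ⟨Q, hQ⟩ : ∃ Q : ℤ, Q = (p : ℤ) ^ B := ⟨_, rfl⟩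
  have hp2 : (2 : ℤ) ≤ (p : ℤ) := by exact_mod_cast hp
  have hQ2 : 2 ≤ Q := by
    rw [hQ]
    calc (2 : ℤ) ≤ (p : ℤ) := hp2
      _ = (p : ℤ) ^ 1 := (pow_one _).symm
      _ ≤ (p : ℤ) ^ B := pow_le_pow_right₀ (by linarith) hB
  have hq3 : Q ^ 3 ≤ ((p ^ (k * B) : ℕ) : ℤ) := by
    rw [hQ, ← pow_mul]
    push_cast
    refine pow_le_pow_right₀ (by linarith) ?_
    calc B * 3 = 3 * B := by ring
      _ ≤ k * B := Nat.mul_le_mul_right B hk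
  rw [← hQ] at hx hy hx' hy'
  have e1 : (x - y) - (x' - y') = 0 := by
    refine Int.eq_zero_of_abs_lt_dvd h1 ?_
    refine lt_of_lt_of_le ?_ hq3
    have : |(x - y) - (x' - y')| < 2 * Q := by
      rw [abs_lt]; constructor <;> linarith [hx.1, hx.2, hy.1, hy.2, hx'.1, hx'.2, hy'.1, hy'.2]
    nlinarith [sq_nonneg Q]
  have e2 : (x ^ 2 - y ^ 2) - (x' ^ 2 - y' ^ 2) = 0 := by
    refine Int.eq_zero_of_abs_lt_dvd h2 ?_
    refine lt_of_lt_of_le ?_ hq3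
    have s : ∀ z : ℤ, 0 ≤ z ∧ z < Q → 0 ≤ z ^ 2 ∧ z ^ 2 < Q ^ 2 := by
      intro z hz
      exact ⟨sq_nonneg _, by nlinarith [hz.1, hz.2]⟩
    have s1 := s x hx
    have s2 := s y hy
    have s3 := s x' hx'
    have s4 := s y' hy'
    have : |(x ^ 2 - y ^ 2) - (x' ^ 2 - y' ^ 2)| < 2 * Q ^ 2 := by
      rw [abs_lt]; constructor <;> linarith [s1.1, s1.2, s2.1, s2.2, s3.1, s3.2, s4.1, s4.2]
    nlinarith [sq_nonneg Q]
  have hd : x' - y' = x - y := by linarith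
  have hne' : x - y ≠ 0 := sub_ne_zero.2 hne
  have e3 : (x - y) * ((x + y) - (x' + y')) = 0 := by
    have : (x' ^ 2 - y' ^ 2) = (x - y) * (x' + y') := by rw [← hd]; ring
    linear_combination e2 + this
  have e4 : (x + y) - (x' + y') = 0 := (mul_eq_zero.1 e3).resolve_left hne'
  constructor <;> linarith

theorem ph (hEX : T_EX) (hCL : T_CL) : T_PH := by
  intro p k B a c ξ hp hk hac hcB hB ι Ω _ w R r F hw hInv hF hinj hr
  classical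
  have hp1 : 1 < p := hp.one_lt
  have hp0 : 0 < p := hp.pos
  obtain ⟨I, hI⟩ : ∃ I, I = cls p R r a ξ := ⟨_, rfl⟩
  have hIR : I ⊆ R := by rw [hI]; exact Finset.filter_subset _ _
  obtain ⟨S, hS⟩ : ∃ S : Finset (ι × ι), S = (I ×ˢ I).filter
    (fun P => (p : ℤ) ^ c ∣ r P.1 - r P.2 ∧ P.1 ≠ P.2) := ⟨_, rfl⟩
  obtain ⟨q, hq⟩ : ∃ q, q = p ^ (k * B) := ⟨_, rfl⟩
  have hq0 : 0 < q := by rw [hq]; exact pow_pos hp0 _
  rw [← hI]
  obtain ⟨D, hD⟩ : ∃ D : Ω → ℝ, D = fun ω => ∑ j ∈ range (p ^ (c - a)),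
          ‖bs F (cls p R r c (ξ + (p : ℤ) ^ a * (j : ℤ))) ω‖ ^ 2 - ∑ i ∈ I, ‖F i ω‖ ^ 2 := ⟨_, rfl⟩
  -- `D` as an off-diagonal sum
  have hDΦ : ∀ ω, ((D ω : ℝ) : ℂ) = ∑ P ∈ S, F P.1 ω * (starRingEnd ℂ) (F P.2 ω) := by
    intro ω
    have h1 := cls_split hCL p hp1 R r a c ξ hac (fun i => F i ω)
    rw [← hI] at h1
    have h2 : ((D ω : ℝ) : ℂ) = (∑ j ∈ range (p ^ (c - a)),
        ((‖∑ i ∈ cls p R r c (ξ + (p : ℤ) ^ a * (j : ℤ)), F i ω‖ ^ 2 : ℝ) : ℂ))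
        - ∑ i ∈ I, F i ω * (starRingEnd ℂ) (F i ω) := by
      rw [hD]
      push_cast
      congr 1
      refine Finset.sum_congr rfl fun i _ => ?_
      rw [← norm_sq_eq]; push_cast; rfl
    rw [h2, ← h1, hS, Finset.sum_filter, Finset.sum_product, ← Finset.sum_sub_distrib]
    refine Finset.sum_congr rfl fun i hi => ?_
    rw [Finset.sum_filter, ← Finset.add_sum_erase I _ hi]
    rw [if_pos (by simp), add_sub_cancel_left]
    rw [← Finset.add_sum_erase I (fun y => if (p : ℤ) ^ c ∣ r (i, y).1 - r (i, y).2 ∧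
      (i, y).1 ≠ (i, y).2 then F (i, y).1 ω * (starRingEnd ℂ) (F (i, y).2 ω) else 0) hi]
    rw [if_neg (by simp), zero_add]
    refine Finset.sum_congr rfl fun i' hi' => ?_
    have hne := (Finset.mem_erase.1 hi').1
    by_cases hd : (p : ℤ) ^ c ∣ r i - r i'
    · rw [if_pos hd, if_pos ⟨hd, Ne.symm hne⟩]
    · rw [if_neg hd, if_neg fun h => hd h.1]
  -- invariance
  have hstep : ∀ h1 h2 : ℕ, ∑ ω, w ω * D ω ^ 2 = ∑ ω, w ω *
      ‖∑ P ∈ S, e ((((h1 : ℤ) * (r P.1 - r P.2) : ℤ) : ℝ) / (q : ℝ)) *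
      (e ((((h2 : ℤ) * (r P.1 ^ 2 - r P.2 ^ 2) : ℤ) : ℝ) / (q : ℝ)) *
        (F P.1 ω * (starRingEnd ℂ) (F P.2 ω)))‖ ^ 2 := by
    intro h1 h2
    obtain ⟨T, hTw, φ, hφ, hFT⟩ := hInv (C (h1 : ℤ) * X + C (h2 : ℤ) * X ^ 2) (by
      refine (natDegree_add_le _ _).trans (max_le ?_ ?_)
      · refine (natDegree_C_mul_le _ _).trans ?_
        rw [natDegree_X]; omega
      · refine (natDegree_C_mul_le _ _).trans ?_
        rw [natDegree_X_pow]; omega)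
    rw [← Equiv.sum_comp T (fun ω => w ω * D ω ^ 2)]
    refine Finset.sum_congr rfl fun ω _ => ?_
    rw [hTw]
    congr 1
    have e1 : D (T ω) ^ 2 = ‖((D (T ω) : ℝ) : ℂ)‖ ^ 2 := by
      rw [Complex.norm_real, Real.norm_eq_abs, sq_abs]
    rw [e1, hDΦ]
    congr 2
    refine Finset.sum_congr rfl fun P hP => ?_
    have hP' : P.1 ∈ R ∧ P.2 ∈ R := by
      rw [hS] at hP
      have := Finset.mem_product.1 (Finset.mem_filter.1 hP).1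
      exact ⟨hIR this.1, hIR this.2⟩
    rw [hFT P.1 hP'.1 ω, hFT P.2 hP'.2 ω, ← hq]
    simp only [eval_add, eval_mul, eval_C, eval_X, eval_pow, map_mul]
    rw [← hEX.2.2.2.1]
    have hφ1 : φ ω * (starRingEnd ℂ) (φ ω) = 1 := by
      rw [← norm_sq_eq, hφ]; simp
    have e2 : e ((((h1 : ℤ) * (r P.1 - r P.2) : ℤ) : ℝ) / (q : ℝ)) *
        e ((((h2 : ℤ) * (r P.1 ^ 2 - r P.2 ^ 2) : ℤ) : ℝ) / (q : ℝ))
        = e ((((h1 : ℤ) * r P.1 + (h2 : ℤ) * r P.1 ^ 2 : ℤ) : ℝ) / (q : ℝ)) *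
          e (-((((h1 : ℤ) * r P.2 + (h2 : ℤ) * r P.2 ^ 2 : ℤ) : ℝ) / (q : ℝ))) := by
      rw [← hEX.2.1, ← hEX.2.1]
      congr 1
      push_cast; ring
    rw [← mul_assoc (e ((((h1 : ℤ) * (r P.1 - r P.2) : ℤ) : ℝ) / (q : ℝ))), e2]
    linear_combination (e ((((h1 : ℤ) * r P.1 + (h2 : ℤ) * r P.1 ^ 2 : ℤ) : ℝ) / (q : ℝ)) *
      e (-((((h1 : ℤ) * r P.2 + (h2 : ℤ) * r P.2 ^ 2 : ℤ) : ℝ) / (q : ℝ))) *
      F P.1 ω * (starRingEnd ℂ) (F P.2 ω)) * hφ1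
  -- separation
  have hSmem : ∀ P ∈ S, P.1 ∈ I ∧ P.2 ∈ I ∧ (p : ℤ) ^ c ∣ r P.1 - r P.2 ∧ P.1 ≠ P.2 := by
    intro P hP
    rw [hS] at hP
    have h1 := Finset.mem_filter.1 hP
    have h2 := Finset.mem_product.1 h1.1
    exact ⟨h2.1, h2.2, h1.2⟩
  have hsep : ∀ P ∈ S, ∀ P' ∈ S, (q : ℤ) ∣ (r P.1 - r P.2) - (r P'.1 - r P'.2) →
      (q : ℤ) ∣ (r P.1 ^ 2 - r P.2 ^ 2) - (r P'.1 ^ 2 - r P'.2 ^ 2) → P = P' := by
    intro P hP P' hP' g1 g2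
    obtain ⟨a1, a2, -, a4⟩ := hSmem P hP
    obtain ⟨b1, b2, -, -⟩ := hSmem P' hP'
    rw [hq] at g1 g2
    have hne : r P.1 ≠ r P.2 := fun h => a4 (hinj (hIR a1) (hIR a2) h)
    have := freq_sep p k B hp.two_le hk hB (r P.1) (r P.2) (r P'.1) (r P'.2)
      (hr _ (hIR a1)) (hr _ (hIR a2)) (hr _ (hIR b1)) (hr _ (hIR b2)) hne g1 g2
    exact Prod.ext (hinj (hIR a1) (hIR b1) this.1) (hinj (hIR a2) (hIR b2) this.2)
  -- counting
  have hIcard : I.card ≤ p ^ (B - a) := by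
    refine class_card p B a hp0 (hac.trans hcB) I r (hinj.mono hIR) (fun i hi => hr i (hIR hi)) ?_
    intro i hi j hj
    rw [hI] at hi hj
    unfold cls at hi hj
    have h1 := (Finset.mem_filter.1 hi).2
    have h2 := (Finset.mem_filter.1 hj).2
    have : r i - r j = (r i - ξ) - (r j - ξ) := by ring
    rw [this]; exact dvd_sub h1 h2
  have hScard : S.card ≤ p ^ (B - a) * p ^ (B - c) := by
    have h1 : S.card = ∑ x ∈ I, (S.filter (fun P => P.1 = x)).card :=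
      Finset.card_eq_sum_card_fiberwise fun P hP => (hSmem P hP).1
    rw [h1]
    have h2 : ∀ x ∈ I, (S.filter (fun P => P.1 = x)).card ≤ p ^ (B - c) := by
      intro x hx
      have h3 : (S.filter (fun P => P.1 = x)).card
          = ((S.filter (fun P => P.1 = x)).image Prod.snd).card := by
        rw [Finset.card_image_of_injOn]
        intro P hP P' hP' he
        have g1 := (Finset.mem_filter.1 hP).2
        have g2 := (Finset.mem_filter.1 hP').2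
        exact Prod.ext (g1.trans g2.symm) he
      rw [h3]
      refine class_card p B c hp0 hcB _ r (hinj.mono ?_) ?_ ?_
      · intro y hy
        obtain ⟨P, hP, rfl⟩ := Finset.mem_image.1 hy
        exact hIR (hSmem P (Finset.mem_filter.1 hP).1).2.1
      · intro y hy
        obtain ⟨P, hP, rfl⟩ := Finset.mem_image.1 hy
        exact hr _ (hIR (hSmem P (Finset.mem_filter.1 hP).1).2.1)
      · intro y hy z hz
        obtain ⟨P, hP, rfl⟩ := Finset.mem_image.1 hy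
        obtain ⟨P', hP', rfl⟩ := Finset.mem_image.1 hz
        have g1 := (Finset.mem_filter.1 hP).2
        have g2 := (Finset.mem_filter.1 hP').2
        have k1 := (hSmem P (Finset.mem_filter.1 hP).1).2.2.1
        have k2 := (hSmem P' (Finset.mem_filter.1 hP').1).2.2.1
        rw [g1] at k1
        rw [g2] at k2
        have : r P.2 - r P'.2 = (r x - r P'.2) - (r x - r P.2) := by ring
        rw [this]; exact dvd_sub k2 k1
    calc ∑ x ∈ I, (S.filter (fun P => P.1 = x)).card ≤ ∑ _x ∈ I, p ^ (B - c) :=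
          Finset.sum_le_sum h2
      _ = I.card * p ^ (B - c) := by rw [Finset.sum_const, smul_eq_mul]
      _ ≤ p ^ (B - a) * p ^ (B - c) := Nat.mul_le_mul_right _ hIcard
  -- conclusion
  have hsum : (q : ℝ) ^ 2 * ∑ ω, w ω * D ω ^ 2
      = ∑ ω, w ω * ((q : ℝ) ^ 2 * ∑ P ∈ S, ‖F P.1 ω * (starRingEnd ℂ) (F P.2 ω)‖ ^ 2) := by
    have h1 : ∑ h2 ∈ range q, ∑ h1 ∈ range q, ∑ ω, w ω * D ω ^ 2
        = (q : ℝ) ^ 2 * ∑ ω, w ω * D ω ^ 2 := by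
      rw [Finset.sum_const, Finset.sum_const, Finset.card_range, nsmul_eq_mul, nsmul_eq_mul]; ring
    rw [← h1, Finset.sum_congr rfl fun h2 _ => Finset.sum_congr rfl fun h1 _ => hstep h1 h2]
    have h3 : ∀ h2 ∈ range q, ∑ h1 ∈ range q, ∑ ω, w ω *
      ‖∑ P ∈ S, e ((((h1 : ℤ) * (r P.1 - r P.2) : ℤ) : ℝ) / (q : ℝ)) *
      (e ((((h2 : ℤ) * (r P.1 ^ 2 - r P.2 ^ 2) : ℤ) : ℝ) / (q : ℝ)) *
        (F P.1 ω * (starRingEnd ℂ) (F P.2 ω)))‖ ^ 2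
        = ∑ ω, ∑ h1 ∈ range q, w ω *
      ‖∑ P ∈ S, e ((((h1 : ℤ) * (r P.1 - r P.2) : ℤ) : ℝ) / (q : ℝ)) *
      (e ((((h2 : ℤ) * (r P.1 ^ 2 - r P.2 ^ 2) : ℤ) : ℝ) / (q : ℝ)) *
        (F P.1 ω * (starRingEnd ℂ) (F P.2 ω)))‖ ^ 2 := fun h2 _ => Finset.sum_comm
    rw [Finset.sum_congr rfl h3, Finset.sum_comm]
    refine Finset.sum_congr rfl fun ω _ => ?_
    rw [← parseval2 hEX q hq0 S (fun P => r P.1 - r P.2) (fun P => r P.1 ^ 2 - r P.2 ^ 2)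
      (fun P => F P.1 ω * (starRingEnd ℂ) (F P.2 ω)) hsep, Finset.mul_sum]
    refine Finset.sum_congr rfl fun h2 _ => ?_
    rw [Finset.mul_sum]
  have hb : ∀ ω, ∑ P ∈ S, ‖F P.1 ω * (starRingEnd ℂ) (F P.2 ω)‖ ^ 2
      ≤ (p : ℝ) ^ (B - a) * (p : ℝ) ^ (B - c) := by
    intro ω
    have h1 : ∀ P ∈ S, ‖F P.1 ω * (starRingEnd ℂ) (F P.2 ω)‖ ^ 2 ≤ 1 := by
      intro P hP
      obtain ⟨a1, a2, -, -⟩ := hSmem P hP
      have g1 := hF _ (hIR a1) ω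
      have g2 := hF _ (hIR a2) ω
      rw [norm_mul, Complex.norm_conj]
      have g3 : ‖F P.1 ω‖ * ‖F P.2 ω‖ ≤ 1 :=
        mul_le_one₀ g1 (norm_nonneg _) g2
      exact pow_le_one₀ (by positivity) g3
    calc ∑ P ∈ S, ‖F P.1 ω * (starRingEnd ℂ) (F P.2 ω)‖ ^ 2 ≤ ∑ _P ∈ S, (1 : ℝ) :=
          Finset.sum_le_sum h1
      _ = (S.card : ℝ) := by simp
      _ ≤ ((p ^ (B - a) * p ^ (B - c) : ℕ) : ℝ) := by exact_mod_cast hScard
      _ = (p : ℝ) ^ (B - a) * (p : ℝ) ^ (B - c) := by push_cast; ring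
  have hqR : (0 : ℝ) < (q : ℝ) ^ 2 := by positivity
  have hfin : (q : ℝ) ^ 2 * ∑ ω, w ω * D ω ^ 2
      ≤ (q : ℝ) ^ 2 * ((p : ℝ) ^ (B - a) * (p : ℝ) ^ (B - c) * ∑ ω, w ω) := by
    rw [hsum, Finset.mul_sum, Finset.mul_sum]
    refine Finset.sum_le_sum fun ω _ => ?_
    calc w ω * ((q : ℝ) ^ 2 * ∑ P ∈ S, ‖F P.1 ω * (starRingEnd ℂ) (F P.2 ω)‖ ^ 2)
        ≤ w ω * ((q : ℝ) ^ 2 * ((p : ℝ) ^ (B - a) * (p : ℝ) ^ (B - c))) := by
          refine mul_le_mul_of_nonneg_left ?_ (hw ω)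
          exact mul_le_mul_of_nonneg_left (hb ω) hqR.le
      _ = (q : ℝ) ^ 2 * ((p : ℝ) ^ (B - a) * (p : ℝ) ^ (B - c) * w ω) := by ring
  have := le_of_mul_le_mul_left hfin hqR
  rw [hD] at this
  exact this

end Pool.Agent.H27.VM
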